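import Pool.Agent.Lib.MP_292d26_lc.Matrix
import Pool.Agent.Lib.Complexity.Rec

/-! The posets built from a formula, and their polynomial-time computability. -/

namespace Pool.Agent.Lib.MP_292d26_lc

open Pool.Agent.Lib.Complexity

/-- formulas in conjunctive normal form -/
abbrev Cnf := List (List (ℕ × Bool))

/-- satisfaction -/
def Sat (ψ : Cnf) (α : ℕ → Bool) : Prop := ∀ cl ∈ ψ, ∃ p ∈ cl, α p.1 = p.2

/-- number of levels -/
def nOf (ψ : Cnf) (N : ℕ) : ℕ := N + (ψ.flatten.map fun p => p.1 + 1).sum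

/-- number of terms -/
def jOf (ψ : Cnf) (N : ℕ) : ℕ := ψ.length + 1 + N

/-- allowed term nodes -/
def alOf (ψ : Cnf) (k : K) : Bool :=
  if k.1 ≤ ψ.length then decide (¬ (k.2.1 - 1, k.2.2) ∈ ψ.getD (k.1 - 1) [])
  else decide (¬ k.2.1 = k.1 - ψ.length ∨ k.2.2 = false)

/-- free term nodes -/
def frOf (ψ : Cnf) (k : K) : Bool :=
  decide (ψ.length < k.1 ∧ k.2.1 = k.1 - ψ.length ∧ k.2.2 = false)

theorem lt_nOf {ψ : Cnf} (N : ℕ) {cl : List (ℕ × Bool)} (hcl : cl ∈ ψ) {p : ℕ × Bool}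
    (hp : p ∈ cl) : p.1 < nOf ψ N := by
  have h : p.1 + 1 ∈ ψ.flatten.map fun p => p.1 + 1 :=
    List.mem_map.mpr ⟨p, List.mem_flatten.mpr ⟨cl, hcl, hp⟩, rfl⟩
  have := List.single_le_sum (fun x _ => Nat.zero_le x) _ h
  unfold nOf
  omega

theorem cover_iff (ψ : Cnf) (N : ℕ) :
    Cover (nOf ψ N) (jOf ψ N) (alOf ψ) (frOf ψ) ↔
      ∃ x : ℕ → Bool, ∀ α : ℕ → Bool, (∀ i < N, α i = x i) → ¬ Sat ψ α := by
  have hN : N ≤ nOf ψ N := Nat.le_add_right _ _
  constructor
  · rintro ⟨t, ht1, ht2⟩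
    refine ⟨fun i => !t (ψ.length + 1 + i, i + 1, false), fun α hα hsat => ?_⟩
    obtain ⟨j, j1, j2, hj⟩ := ht2 fun l => α (l - 1)
    by_cases hjr : j ≤ ψ.length
    · have hlt : j - 1 < ψ.length := by omega
      obtain ⟨p, hp, hp'⟩ := hsat ψ[j - 1] (List.getElem_mem _)
      obtain ⟨b, b1, b2⟩ := hj (p.1 + 1) (by omega) (lt_nOf N (List.getElem_mem _) hp)
      rw [ht1 _ (by simp [frOf]; omega)] at b2
      simp only [Nat.add_sub_cancel] at b2
      simp only [alOf, hjr, if_true, Nat.add_sub_cancel, decide_eq_true_eq] at b1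
      apply b1
      rw [List.getD_eq_getElem _ _ hlt, b2, hp']
      exact hp
    · unfold jOf at j2
      obtain ⟨b, b1, b2⟩ := hj (j - ψ.length) (by omega) (by omega)
      simp only [alOf, hjr, if_false, not_true, false_or, decide_eq_true_eq] at b1
      subst b1
      have h1 := hα (j - ψ.length - 1) (by omega)
      beta_reduce at h1
      rw [show ψ.length + 1 + (j - ψ.length - 1) = j by omega,
        show j - ψ.length - 1 + 1 = j - ψ.length by omega, b2] at h1
      simp at h1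
  · rintro ⟨x, hx⟩
    refine ⟨fun k => if frOf ψ k then !x (k.2.1 - 1) else k.2.2, fun k hk => by simp [hk],
      fun α => ?_⟩
    by_cases hα : ∀ i < N, α (i + 1) = x i
    · have h1 := hx (fun i => α (i + 1)) hα
      unfold Sat at h1
      push Not at h1
      obtain ⟨cl, hcl, h2⟩ := h1
      obtain ⟨i, hi, rfl⟩ := List.getElem_of_mem hcl
      refine ⟨i + 1, by omega, by unfold jOf; omega, fun l l1 _ => ⟨α l, ?_, ?_⟩⟩
      · simp only [alOf, show i + 1 ≤ ψ.length from hi, if_true, Nat.add_sub_cancel,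
          decide_eq_true_eq]
        rw [List.getD_eq_getElem _ _ hi]
        intro h
        apply h2 _ h
        simp only [Nat.sub_add_cancel l1]
      · have : frOf ψ (i + 1, l, α l) = false := by simp [frOf]; omega
        simp [this]
    · push Not at hα
      obtain ⟨i, hi, h1⟩ := hα
      refine ⟨ψ.length + 1 + i, by omega, by unfold jOf; omega, fun l l1 _ => ?_⟩
      have e1 : ψ.length + 1 + i - ψ.length = i + 1 := by omega
      have e2 : ¬ ψ.length + 1 + i ≤ ψ.length := by omega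
      by_cases hl : l = i + 1
      · subst hl
        refine ⟨false, by simp [alOf, e2], ?_⟩
        have : frOf ψ (ψ.length + 1 + i, i + 1, false) = true := by simp [frOf]; omega
        simp only [this, if_true, Nat.add_sub_cancel]
        revert h1
        cases α (i + 1) <;> cases x i <;> simp
      · refine ⟨α l, by simp [alOf, e2, e1, hl], ?_⟩
        have : frOf ψ (ψ.length + 1 + i, l, α l) = false := by simp [frOf, e1, hl]
        simp [this]

/-- Boolean membership in a term component -/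
def inTermB (ψ : Cnf) (j : ℕ) (u : QN) : Bool :=
  (decide (u.1 = 0) && decide (u.2.1 = main)) || ((decide (u.1 = 1) && decide (u.2.1 = main)) ||
    (decide (u.1 = 2) && (decide (u.2.1.1 = j) && alOf ψ u.2.1)))

/-- Boolean membership in a cube component -/
def inCubeB (ψ : Cnf) (k k' : K) (u : QN) : Bool :=
  (decide (u.1 = 0) && decide (u.2.1 = k)) || ((decide (u.1 = 1) && decide (u.2.1 = k')) ||
    ((decide (u.1 = 2) && (decide (k = k') &&
      (decide (u.2.1 = fstK (frOf ψ) k) || decide (u.2.1 = sndK k)))) ||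
    (decide (u.1 = 3) && (decide (u.2.1 = k) && (decide (u.2.2.1 = k') &&
      !(decide (k = k') && decide (k.2.1 = u.2.2.2.1)))))))

/-- Boolean edge test -/
def edgeB (ψ : Cnf) (N : ℕ) (u v : QN) : Bool :=
  ((List.range (jOf ψ N)).any fun j => !decide (j = 0) && (inTermB ψ j u && inTermB ψ j v)) ||
    (LK (nOf ψ N) (jOf ψ N)).any fun k => (LK (nOf ψ N) (jOf ψ N)).any fun k' =>
      !(decide (k = main) && decide (k' = main)) && (inCubeB ψ k k' u && inCubeB ψ k k' v)

/-- Boolean order of `Q` -/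
def ltQB (ψ : Cnf) (N : ℕ) (u v : QN) : Bool :=
  decide (lev u + 2 ≤ lev v) || (decide (lev u + 1 = lev v) && edgeB ψ N u v)

/-- Boolean order of `P` -/
def ltPB (a a' : PN) : Bool := decide (a.1 < a'.1)

theorem inTermB_iff (ψ : Cnf) (j : ℕ) (u : QN) : inTermB ψ j u = true ↔ inTerm (alOf ψ) j u := by
  simp only [inTermB, inTerm, Bool.or_eq_true, Bool.and_eq_true, decide_eq_true_eq]

theorem inCubeB_iff (ψ : Cnf) (k k' : K) (u : QN) :
    inCubeB ψ k k' u = true ↔ inCube (frOf ψ) k k' u := by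
  simp only [inCubeB, inCube, Bool.or_eq_true, Bool.and_eq_true, decide_eq_true_eq,
    Bool.not_eq_true', ← Bool.not_eq_true]

theorem ltQB_iff (ψ : Cnf) (N : ℕ) (u v : QN) :
    ltQB ψ N u v = true ↔ ltQ (nOf ψ N) (jOf ψ N) (alOf ψ) (frOf ψ) u v := by
  simp only [ltQB, ltQ, layLt, edgeB, edge, Bool.or_eq_true, Bool.and_eq_true, decide_eq_true_eq,
    Bool.not_eq_true', ← Bool.not_eq_true, List.any_eq_true, inTermB_iff, inCubeB_iff, ne_eq]

/-- the matrix of `P` -/
def matP (ψ : Cnf) (N : ℕ) : List (List Bool) := mat (LP (nOf ψ N) (jOf ψ N)).dedup ltPB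

/-- the matrix of `Q` -/
def matQ (ψ : Cnf) (N : ℕ) : List (List Bool) := mat (LQ (nOf ψ N) (jOf ψ N)).dedup (ltQB ψ N)

theorem poset_matP (ψ : Cnf) (N : ℕ) : IsPosetMatrix (matP ψ N) :=
  isPosetMatrix_mat _ _ (fun a => by simp [ltPB]) fun a b c => by
    simp only [ltPB, decide_eq_true_eq]; omega

theorem poset_matQ (ψ : Cnf) (N : ℕ) : IsPosetMatrix (matQ ψ N) :=
  isPosetMatrix_mat _ _ (fun a => by simp [ltQB]) fun a b c => by
    simp only [ltQB, Bool.or_eq_true, Bool.and_eq_true, decide_eq_true_eq]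
    intro h1 h2
    left
    omega

theorem isChainMinor_build (ψ : Cnf) (N : ℕ) :
    IsChainMinor (matP ψ N) (matQ ψ N) ↔
      ∃ x : ℕ → Bool, ∀ α : ℕ → Bool, (∀ i < N, α i = x i) → ¬ Sat ψ α := by
  rw [← cover_iff, ← cm_iff_cover (by unfold jOf; omega), matP, matQ,
    isChainMinor_mat (List.nodup_dedup _) (List.nodup_dedup _),
    CM.congr_mem (fun _ => List.mem_dedup) (fun _ => List.mem_dedup)]
  have h1 : (fun a b => ltPB a b = true) = ltP := by
    funext a b; simp [ltPB, ltP]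
  have h2 : (fun a b => ltQB ψ N a b = true) = ltQ (nOf ψ N) (jOf ψ N) (alOf ψ) (frOf ψ) := by
    funext a b; exact propext (ltQB_iff ψ N a b)
  rw [h1, h2]

section pt

variable {α β : Type} [Enc α] [Enc β]

@[fun_prop] theorem pt_dedup [DecidableEq β] {l : α → List β} (hl : PT l) :
    PT fun a => (l a).dedup :=
  (PT.foldr_add' (f := fun _ b x => if b ∈ x then x else b :: x) (g := fun _ b => sz b + 1) hl
    (PT.const []) (by fun_prop) (by fun_prop) fun a b x => by
      split_ifs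
      · simp
      · simp; omega).of_eq fun a => by
    induction l a with
    | nil => rfl
    | cons b l ih =>
      rw [List.foldr_cons, ih]
      split_ifs with h
      · rw [List.dedup_cons_of_mem' h]
      · rw [List.dedup_cons_of_notMem' h]

@[fun_prop] theorem pt_nOf {ψ : α → Cnf} {N : α → ℕ} (h1 : PT ψ) (h2 : PT N) :
    PT fun a => nOf (ψ a) (N a) := by unfold nOf; fun_prop

@[fun_prop] theorem pt_jOf {ψ : α → Cnf} {N : α → ℕ} (h1 : PT ψ) (h2 : PT N) :
    PT fun a => jOf (ψ a) (N a) := by unfold jOf; fun_prop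

@[fun_prop] theorem pt_alOf {ψ : α → Cnf} {k : α → K} (h1 : PT ψ) (h2 : PT k) :
    PT fun a => alOf (ψ a) (k a) := by unfold alOf; fun_prop

@[fun_prop] theorem pt_frOf {ψ : α → Cnf} {k : α → K} (h1 : PT ψ) (h2 : PT k) :
    PT fun a => frOf (ψ a) (k a) := by unfold frOf; fun_prop

@[fun_prop] theorem pt_fstK {ψ : α → Cnf} {k : α → K} (h1 : PT ψ) (h2 : PT k) :
    PT fun a => fstK (frOf (ψ a)) (k a) := by unfold fstK; fun_prop

@[fun_prop] theorem pt_sndK {k : α → K} (h2 : PT k) : PT fun a => sndK (k a) := by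
  unfold sndK; fun_prop

@[fun_prop] theorem pt_LG {n J : α → ℕ} (h1 : PT n) (h2 : PT J) :
    PT fun a => LG (n a) (J a) := by unfold LG; fun_prop

@[fun_prop] theorem pt_LK {n J : α → ℕ} (h1 : PT n) (h2 : PT J) :
    PT fun a => LK (n a) (J a) := by unfold LK; fun_prop

@[fun_prop] theorem pt_LP {n J : α → ℕ} (h1 : PT n) (h2 : PT J) :
    PT fun a => LP (n a) (J a) := by unfold LP; fun_prop

@[fun_prop] theorem pt_LQ {n J : α → ℕ} (h1 : PT n) (h2 : PT J) :
    PT fun a => LQ (n a) (J a) := by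
  have e1 : nW = fun k => (0, k, k, 0, false) := rfl
  have e2 : ∀ n, nV n = fun k => (1, k, k, n + 1, false) := fun _ => rfl
  have e3 : nT = fun k => (2, k, k, k.2.1, false) := rfl
  unfold LQ nC
  simp only [e1, e2, e3]
  fun_prop

@[fun_prop] theorem pt_inTermB {ψ : α → Cnf} {j : α → ℕ} {u : α → QN} (h1 : PT ψ) (h2 : PT j)
    (h3 : PT u) : PT fun a => inTermB (ψ a) (j a) (u a) := by unfold inTermB; fun_prop

@[fun_prop] theorem pt_inCubeB {ψ : α → Cnf} {k k' : α → K} {u : α → QN} (h1 : PT ψ) (h2 : PT k)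
    (h2' : PT k') (h3 : PT u) : PT fun a => inCubeB (ψ a) (k a) (k' a) (u a) := by
  unfold inCubeB; fun_prop

@[fun_prop] theorem pt_edgeB {ψ : α → Cnf} {N : α → ℕ} {u v : α → QN} (h1 : PT ψ) (h2 : PT N)
    (h3 : PT u) (h4 : PT v) : PT fun a => edgeB (ψ a) (N a) (u a) (v a) := by
  unfold edgeB; fun_prop

@[fun_prop] theorem pt_ltQB {ψ : α → Cnf} {N : α → ℕ} {u v : α → QN} (h1 : PT ψ) (h2 : PT N)
    (h3 : PT u) (h4 : PT v) : PT fun a => ltQB (ψ a) (N a) (u a) (v a) := by
  unfold ltQB lev; fun_prop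

@[fun_prop] theorem pt_matP {ψ : α → Cnf} {N : α → ℕ} (h1 : PT ψ) (h2 : PT N) :
    PT fun a => matP (ψ a) (N a) := by
  unfold matP mat ltPB; fun_prop

@[fun_prop] theorem pt_matQ {ψ : α → Cnf} {N : α → ℕ} (h1 : PT ψ) (h2 : PT N) :
    PT fun a => matQ (ψ a) (N a) := by
  unfold matQ mat; fun_prop

end pt

end Pool.Agent.Lib.MP_292d26_lc
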