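import Pool.Agent.Lib.MP_292d26_lc.Member

/-! Membership in `NP` is equivalent to the collapse `NP = coNP`. -/

namespace Pool.Agent.Lib.MP_292d26_lc

open Pool.Agent.Lib.Complexity N487b59b3 N68a2faeb

theorem compl_apply_iff (L : DecisionProblem) (x : Str) : (Lᶜ x = true) ↔ ¬ (L x = true) := by
  change (!L x) = true ↔ _
  simp

theorem mem_NP_of_reduction (sim : ∀ R : Str × Str → Bool, IsPolyTime R → PT R)
    {L L' : DecisionProblem} {f : Str → Str} (hf : PT f) (h : ∀ x, L x = L' (f x))
    (hL' : L' ∈ NP) : L ∈ NP := by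
  obtain ⟨p, R, hR, hL'⟩ := hL'
  obtain ⟨q, hq⟩ := hf.pb
  have h1 : PT fun t : Str × Str => p.eval (f t.1).length := PT.poly_eval (by fun_prop) p
  have h2 : PT fun t : Str × Str => R (f t.1, t.2) := (sim R hR).comp (by fun_prop)
  refine mem_NP_of_PT (R := fun t => decide (t.2.length ≤ p.eval (f t.1).length) && R (f t.1, t.2))
    (PT.and (PT.dec_le (by fun_prop) h1) h2) (p.comp (q.comp (2 * Polynomial.X))) fun x => ?_
  rw [h, hL']
  simp only [Bool.and_eq_true, decide_eq_true_eq]
  refine ⟨fun ⟨w, a1, a2⟩ => ⟨w, a1.trans ?_, a1, a2⟩, fun ⟨w, _, a1, a2⟩ => ⟨w, a1, a2⟩⟩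
  simp only [Polynomial.eval_comp, Polynomial.eval_mul, Polynomial.eval_ofNat, Polynomial.eval_X]
  exact peval_mono p ((length_le_sz _).trans ((hq x).trans (peval_mono q (PT.sz_str_le x))))

theorem mem_NP_of_collapse (sim : ∀ R : Str × Str → Bool, IsPolyTime R → PT R)
    (hc : NP = coNP) {L : DecisionProblem} (p : Polynomial ℕ) (R : Str × Str × Str → Bool)
    (hR : PT R) (hL : ∀ x, L x ↔ ∃ u : Str, u.length ≤ p.eval x.length ∧
      ∀ v : Str, v.length ≤ p.eval x.length → R (x, u, v)) : L ∈ NP := by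
  classical
  let sp : Str → Str × Str := fun z => (undelimit z).getD ([], [])
  have hsp : PT sp := by unfold sp; fun_prop
  have hsp1 : ∀ z, (sp z).1.length ≤ 2 * z.length := by
    intro z
    unfold sp
    cases h : undelimit z with
    | none => simp
    | some q =>
      have h1 := (PT.undelimit_sz h).1
      have h2 := PT.sz_str_le z
      have h3 := length_le_sz q.1
      simp only [Option.getD_some]
      omega
  have hsp2 : ∀ x u : Str, sp (delimit x ++ u) = (x, u) := fun x u => by simp [sp]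
  let L' : DecisionProblem := fun z =>
    decide (∀ v : Str, v.length ≤ p.eval (sp z).1.length → R ((sp z).1, (sp z).2, v))
  have h1 : L' ∈ coNP := by
    have a1 : PT fun t : Str × Str => p.eval (sp t.1).1.length := PT.poly_eval (by fun_prop) p
    have a2 : PT fun t : Str × Str => R ((sp t.1).1, (sp t.1).2, t.2) := hR.comp (by fun_prop)
    refine mem_NP_of_PT (R := fun t => decide (t.2.length ≤ p.eval (sp t.1).1.length) &&
      !R ((sp t.1).1, (sp t.1).2, t.2)) (PT.and (PT.dec_le (by fun_prop) a1) a2.not)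
      (p.comp (2 * Polynomial.X)) fun z => ?_
    rw [compl_apply_iff]
    simp only [L', decide_eq_true_eq, Bool.and_eq_true, Bool.not_eq_true', not_forall,
      Bool.not_eq_true, Polynomial.eval_comp, Polynomial.eval_mul, Polynomial.eval_ofNat,
      Polynomial.eval_X]
    exact ⟨fun ⟨v, b1, b2⟩ => ⟨v, b1.trans (peval_mono p (hsp1 z)), b1, b2⟩,
      fun ⟨v, _, b1, b2⟩ => ⟨v, b1, b2⟩⟩
  rw [← hc] at h1
  obtain ⟨q, R', hR', h1⟩ := h1
  have a1 : PT fun t : Str × Str × Str => p.eval t.1.length := PT.poly_eval (by fun_prop) p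
  have a2 : PT fun t : Str × Str × Str => q.eval (delimit t.1 ++ t.2.1).length :=
    PT.poly_eval (by fun_prop) q
  have a3 : PT fun t : Str × Str × Str => R' (delimit t.1 ++ t.2.1, t.2.2) :=
    (sim R' hR').comp (by fun_prop)
  refine mem_NP_of_rd (W := Str × Str) (R := fun t => decide (t.2.1.length ≤ p.eval t.1.length) &&
      (decide (t.2.2.length ≤ q.eval (delimit t.1 ++ t.2.1).length) &&
        R' (delimit t.1 ++ t.2.1, t.2.2)))
    (PT.and (PT.dec_le (by fun_prop) a1) (PT.and (PT.dec_le (by fun_prop) a2) a3))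
    (2 * p + 2 * q.comp (2 * Polynomial.X + 1 + p) + 1) (fun x w hw => ?_) fun x hx => ?_
  · simp only [Bool.and_eq_true, decide_eq_true_eq] at hw
    have h2 := (h1 (delimit x ++ w.1)).mpr ⟨w.2, hw.2.1, hw.2.2⟩
    simp only [L', hsp2, decide_eq_true_eq] at h2
    exact (hL x).mpr ⟨w.1, hw.1, h2⟩
  · obtain ⟨u, hu, hv⟩ := (hL x).mp hx
    obtain ⟨w, b1, b2⟩ := (h1 (delimit x ++ u)).mp (by
      simp only [L', hsp2, decide_eq_true_eq]; exact hv)
    refine ⟨(u, w), ?_, by simp only [Bool.and_eq_true, decide_eq_true_eq]; exact ⟨hu, b1, b2⟩⟩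
    have c1 := PT.sz_str_le u
    have c2 := PT.sz_str_le w
    have c3 : q.eval (delimit x ++ u).length ≤ q.eval (2 * x.length + 1 + p.eval x.length) :=
      peval_mono q (by rw [List.length_append, length_delimit]; omega)
    simp only [sz_prod, Polynomial.eval_add, Polynomial.eval_mul, Polynomial.eval_ofNat,
      Polynomial.eval_comp, Polynomial.eval_X, Polynomial.eval_one]
    omega

theorem mem_NP_iff_of_cookLevin (sim : ∀ R : Str × Str → Bool, IsPolyTime R → PT R)
    (sim3 : ∀ R : Str × Str × Str → Bool, IsPolyTime R → PT R)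
    (cl : ∀ (R : Str × Str → Bool) (q : Polynomial ℕ), PT R → ∃ ψ : Str → Cnf, PT ψ ∧
      ∀ x w : Str, w.length = q.eval x.length → (R (x, w) = true ↔
        ∃ α : ℕ → Bool, (∀ i < w.length, α i = w.getD i false) ∧ Sat (ψ x) α)) :
    chainMinor ∈ NP ↔ NP = coNP := by
  constructor
  · intro h
    have h1 : ∀ L, L ∈ coNP → L ∈ NP := by
      rintro L ⟨p, R, hR, hL⟩
      obtain ⟨f, hf, hf'⟩ := hard_of_cookLevin cl (L := L) p (fun t => !R (t.1, t.2.2))
        (PT.not ((sim R hR).comp (by fun_prop))) fun x => by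
          have h2 := hL x
          rw [compl_apply_iff] at h2
          constructor
          · intro hx
            refine ⟨[], by simp, fun v hv => ?_⟩
            by_contra hne
            exact h2.mpr ⟨v, hv, by simpa using hne⟩ hx
          · rintro ⟨_, _, hv⟩
            by_contra hx
            obtain ⟨w, a1, a2⟩ := h2.mp hx
            have := hv w a1
            simp [a2] at this
      exact mem_NP_of_reduction sim hf hf' h
    refine Set.Subset.antisymm (fun L hL => ?_) h1
    exact h1 Lᶜ (by change Lᶜᶜ ∈ NP; rwa [compl_compl])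
  · intro hc
    obtain ⟨p, R, hR, hL⟩ := chainMinor_mem
    exact mem_NP_of_collapse sim hc p R (sim3 R hR) hL

end Pool.Agent.Lib.MP_292d26_lc
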