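import Mathlib

/-! The combinatorial core of the reduction to CHAIN MINOR. -/

namespace Pool.Agent.Lib.MP_292d26_lc

/-- chain minor relation between the elements of two lists -/
def CM {A B : Type} (LA : List A) (LB : List B) (ltA : A → A → Prop) (ltB : B → B → Prop) :
    Prop :=
  ∃ f : B → A, (∀ b ∈ LB, f b ∈ LA) ∧ ∀ c : List A, (∀ a ∈ c, a ∈ LA) → c.IsChain ltA →
    ∃ c' : List B, (∀ b ∈ c', b ∈ LB) ∧ c'.IsChain ltB ∧ c'.map f = c

section layered

variable {A B : Type} {LA : List A} {LB : List B} {la : A → ℕ} {lb : B → ℕ}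
  {e : B → B → Prop} {m : ℕ}

theorem level_eq {g : ℕ → ℕ} {m : ℕ} (h1 : ∀ i < m, g i < g (i + 1)) (h2 : g m ≤ m) :
    ∀ i ≤ m, g i = i := by
  have a1 : ∀ i ≤ m, i ≤ g i := by
    intro i hi
    induction i with
    | zero => omega
    | succ i ih => have := ih (by omega); have := h1 i (by omega); omega
  have a2 : ∀ d, ∀ i, i + d = m → g i + d ≤ g m := by
    intro d
    induction d with
    | zero => intro i hi; simp at hi; subst hi; omega
    | succ d ih =>
      intro i hi
      have := ih (i + 1) (by omega)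
      have := h1 i (by omega)
      omega
  intro i hi
  have := a1 i hi
  have := a2 (m - i) i (by omega)
  omega

/-- the order of a layered graph -/
def layLt (lb : B → ℕ) (e : B → B → Prop) (u v : B) : Prop :=
  lb u + 2 ≤ lb v ∨ (lb u + 1 = lb v ∧ e u v)

theorem path_of_section (hB : ∀ b ∈ LB, lb b ≤ m) {f : B → A}
    (hf : ∀ c : List A, (∀ a ∈ c, a ∈ LA) → c.IsChain (fun a a' => la a < la a') →
      ∃ c' : List B, (∀ b ∈ c', b ∈ LB) ∧ c'.IsChain (layLt lb e) ∧ c'.map f = c)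
    (s : ℕ → A) (hs : ∀ i ≤ m, s i ∈ LA ∧ la (s i) = i) :
    ∃ u : ℕ → B, (∀ i ≤ m, u i ∈ LB ∧ lb (u i) = i ∧ f (u i) = s i) ∧
      ∀ i < m, e (u i) (u (i + 1)) := by
  obtain ⟨c', h1, h2, h3⟩ := hf ((List.range (m + 1)).map s) (by
      intro a ha
      obtain ⟨i, hi, rfl⟩ := List.mem_map.mp ha
      exact (hs i (by simpa [Nat.lt_succ_iff] using hi)).1) (by
      rw [List.isChain_map, List.isChain_range_succ]
      intro i hi
      rw [(hs i (by omega)).2, (hs (i + 1) (by omega)).2]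
      omega)
  have hlen : c'.length = m + 1 := by simpa using congrArg List.length h3
  have h0 : 0 < c'.length := by omega
  set u : ℕ → B := fun i => c'.getD i c'[0] with hu
  have hui : ∀ i (hi : i < c'.length), u i = c'[i] := fun i hi => by
    simp [hu, List.getD_eq_getElem?_getD, List.getElem?_eq_getElem hi]
  rw [List.isChain_iff_getElem] at h2
  have hlt : ∀ i < m, layLt lb e (u i) (u (i + 1)) := fun i hi => by
    rw [hui i (by omega), hui (i + 1) (by omega)]
    exact h2 i (by omega)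
  have hmem : ∀ i ≤ m, u i ∈ LB := fun i hi => by
    rw [hui i (by omega)]
    exact h1 _ (List.getElem_mem _)
  have hlev := level_eq (g := fun i => lb (u i)) (m := m) (fun i hi => by
    rcases hlt i hi with h | h <;> omega) (hB _ (hmem m le_rfl))
  refine ⟨u, fun i hi => ⟨hmem i hi, hlev i hi, ?_⟩, fun i hi => ?_⟩
  · rw [hui i (by omega)]
    have := List.getElem_of_eq h3 (i := i) (by simp; omega)
    simpa using this
  · have a1 := hlev i (by omega)
    have a2 := hlev (i + 1) (by omega)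
    rcases hlt i hi with h | h
    · omega
    · exact h.2

theorem cm_of_paths (hA : ∀ a ∈ LA, la a ≤ m) (d : ℕ → A)
    (hd : ∀ i ≤ m, d i ∈ LA ∧ la (d i) = i) {f : B → A} (hf : ∀ b ∈ LB, f b ∈ LA)
    (h : ∀ s : ℕ → A, (∀ i ≤ m, s i ∈ LA ∧ la (s i) = i) →
      ∃ u : ℕ → B, (∀ i ≤ m, u i ∈ LB ∧ lb (u i) = i ∧ f (u i) = s i) ∧
        ∀ i < m, e (u i) (u (i + 1))) :
    CM LA LB (fun a a' => la a < la a') (layLt lb e) := by
  classical
  refine ⟨f, hf, fun c hc hch => ?_⟩
  have : Trans (fun a a' : A => la a < la a') (fun a a' => la a < la a')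
    (fun a a' => la a < la a') := ⟨fun h1 h2 => lt_trans h1 h2⟩
  have hp := List.isChain_iff_pairwise.mp hch
  have huniq : ∀ a ∈ c, ∀ a' ∈ c, la a = la a' → a = a' := by
    intro a ha a' ha' hl
    by_contra hne
    have hsymm : c.Pairwise fun a a' => la a ≠ la a' := hp.imp fun h => ne_of_lt h
    have : Std.Symm fun a a' : A => la a ≠ la a' := ⟨fun _ _ h => Ne.symm h⟩
    exact hsymm.forall ha ha' hne hl
  set s : ℕ → A := fun i => if h : ∃ a ∈ c, la a = i then h.choose else d i with hs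
  obtain ⟨u, hu1, hu2⟩ := h s (fun i hi => by
    simp only [hs]
    split_ifs with h
    · exact ⟨hc _ h.choose_spec.1, h.choose_spec.2⟩
    · exact hd i hi)
  refine ⟨c.map fun a => u (la a), ?_, ?_, ?_⟩
  · intro b hb
    obtain ⟨a, ha, rfl⟩ := List.mem_map.mp hb
    exact (hu1 _ (hA a (hc a ha))).1
  · rw [List.isChain_map]
    refine List.Pairwise.isChain ?_
    refine List.Pairwise.imp_of_mem (fun {a a'} ha ha' hlt => ?_) hp
    have b1 := hA a (hc a ha)
    have b2 := hA a' (hc a' ha')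
    unfold layLt
    rw [(hu1 _ b1).2.1, (hu1 _ b2).2.1]
    by_cases h1 : la a + 1 = la a'
    · exact Or.inr ⟨h1, h1 ▸ hu2 _ (by omega)⟩
    · left; omega
  · rw [List.map_map]
    conv_rhs => rw [← List.map_id c]
    refine List.map_congr_left fun a ha => ?_
    simp only [Function.comp, id]
    rw [(hu1 _ (hA a (hc a ha))).2.2]
    have h1 : ∃ a' ∈ c, la a' = la a := ⟨a, ha, rfl⟩
    simp only [hs, dif_pos h1]
    exact huniq _ h1.choose_spec.1 _ ha h1.choose_spec.2

end layered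

/-- gadget indices `(term, level, bit)`; `(0, 0, false)` is the main index -/
abbrev K := ℕ × ℕ × Bool

/-- the main index -/
def main : K := (0, 0, false)

/-- elements of `P`: level and name -/
abbrev PN := ℕ × K

/-- elements of `Q`: tag, two indices, level, bit -/
abbrev QN := ℕ × K × K × ℕ × Bool

/-- gadget indices -/
def LG (n J : ℕ) : List K :=
  (List.range J).flatMap fun j => (List.range n).flatMap fun l => [(j, l + 1, false), (j, l + 1, true)]

/-- all indices -/
def LK (n J : ℕ) : List K := main :: LG n J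

/-- elements of `P` -/
def LP (n J : ℕ) : List PN :=
  (LK n J).map (fun k => (0, k)) ++ ((LK n J).map (fun k => (n + 1, k)) ++
    (List.range n).flatMap fun l => [(l + 1, (0, 0, false)), (l + 1, (0, 0, true))])

/-- bottom nodes -/
def nW (k : K) : QN := (0, k, k, 0, false)
/-- top nodes -/
def nV (n : ℕ) (k : K) : QN := (1, k, k, n + 1, false)
/-- term nodes -/
def nT (k : K) : QN := (2, k, k, k.2.1, false)
/-- cube nodes -/
def nC (k k' : K) (l : ℕ) (b : Bool) : QN := (3, k, k', l, b)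

/-- elements of `Q` -/
def LQ (n J : ℕ) : List QN :=
  (LK n J).map nW ++ ((LK n J).map (nV n) ++ ((LG n J).map nT ++
    (LK n J).flatMap fun k => (LK n J).flatMap fun k' =>
      (List.range n).flatMap fun l => [nC k k' (l + 1) false, nC k k' (l + 1) true]))

/-- first node of the pair of a gadget -/
def fstK (fr : K → Bool) (k : K) : K := if fr k then (0, k.2.1, k.2.2) else k
/-- second node of the pair of a gadget -/
def sndK (k : K) : K := (0, k.2.1, !k.2.2)

/-- membership in the component of a term -/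
def inTerm (al : K → Bool) (j : ℕ) (u : QN) : Prop :=
  (u.1 = 0 ∧ u.2.1 = main) ∨ (u.1 = 1 ∧ u.2.1 = main) ∨
    (u.1 = 2 ∧ u.2.1.1 = j ∧ al u.2.1 = true)

/-- membership in the component of a cube -/
def inCube (fr : K → Bool) (k k' : K) (u : QN) : Prop :=
  (u.1 = 0 ∧ u.2.1 = k) ∨ (u.1 = 1 ∧ u.2.1 = k') ∨
    (u.1 = 2 ∧ k = k' ∧ (u.2.1 = fstK fr k ∨ u.2.1 = sndK k)) ∨
    (u.1 = 3 ∧ u.2.1 = k ∧ u.2.2.1 = k' ∧ ¬ (k = k' ∧ k.2.1 = u.2.2.2.1))

/-- edges of the layered graph -/
def edge (n J : ℕ) (al fr : K → Bool) (u v : QN) : Prop :=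
  (∃ j ∈ List.range J, j ≠ 0 ∧ inTerm al j u ∧ inTerm al j v) ∨
    ∃ k ∈ LK n J, ∃ k' ∈ LK n J, ¬ (k = main ∧ k' = main) ∧ inCube fr k k' u ∧ inCube fr k k' v

/-- the covering problem with free labels -/
def Cover (n J : ℕ) (al fr : K → Bool) : Prop :=
  ∃ t : K → Bool, (∀ k, fr k = false → t k = k.2.2) ∧ ∀ α : ℕ → Bool,
    ∃ j, 0 < j ∧ j < J ∧ ∀ l, 1 ≤ l → l ≤ n → ∃ b, al (j, l, b) = true ∧ t (j, l, b) = α l

theorem mem_LG {n J : ℕ} {k : K} : k ∈ LG n J ↔ k.1 < J ∧ 1 ≤ k.2.1 ∧ k.2.1 ≤ n := by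
  obtain ⟨j, l, b⟩ := k
  simp only [LG, List.mem_flatMap, List.mem_range, List.mem_cons, Prod.mk.injEq,
    List.not_mem_nil, or_false]
  constructor
  · rintro ⟨j', hj, l', hl, ⟨rfl, rfl, -⟩ | ⟨rfl, rfl, -⟩⟩ <;> omega
  · rintro ⟨h1, h2, h3⟩
    refine ⟨j, h1, l - 1, by omega, ?_⟩
    cases b
    · left; exact ⟨rfl, by omega, rfl⟩
    · right; exact ⟨rfl, by omega, rfl⟩

theorem mem_LK {n J : ℕ} {k : K} : k ∈ LK n J ↔ k = main ∨ k ∈ LG n J := by
  simp [LK]

theorem main_mem (n J : ℕ) : main ∈ LK n J := by simp [LK]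

theorem ne_main {n J : ℕ} {k : K} (hk : k ∈ LG n J) : k ≠ main := by
  rintro rfl
  have := mem_LG.mp hk
  simp [main] at this

theorem mem_LP {n J : ℕ} {a : PN} : a ∈ LP n J ↔ (a.1 = 0 ∧ a.2 ∈ LK n J) ∨
    (a.1 = n + 1 ∧ a.2 ∈ LK n J) ∨ (1 ≤ a.1 ∧ a.1 ≤ n ∧ ∃ b, a.2 = (0, 0, b)) := by
  obtain ⟨l, k⟩ := a
  simp only [LP, List.mem_append, List.mem_map, Prod.mk.injEq, List.mem_flatMap, List.mem_range,
    List.mem_cons, List.not_mem_nil, or_false]
  constructor
  · rintro (⟨k', h, rfl, rfl⟩ | ⟨k', h, rfl, rfl⟩ | ⟨l', h, ⟨rfl, rfl⟩ | ⟨rfl, rfl⟩⟩)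
    · exact Or.inl ⟨rfl, h⟩
    · exact Or.inr (Or.inl ⟨rfl, h⟩)
    · exact Or.inr (Or.inr ⟨by omega, by omega, _, rfl⟩)
    · exact Or.inr (Or.inr ⟨by omega, by omega, _, rfl⟩)
  · rintro (⟨rfl, h⟩ | ⟨rfl, h⟩ | ⟨h1, h2, b, rfl⟩)
    · exact Or.inl ⟨k, h, rfl, rfl⟩
    · exact Or.inr (Or.inl ⟨k, h, rfl, rfl⟩)
    · refine Or.inr (Or.inr ⟨l - 1, by omega, ?_⟩)
      cases b
      · left; exact ⟨by omega, rfl⟩
      · right; exact ⟨by omega, rfl⟩

theorem mem_LQ {n J : ℕ} {u : QN} : u ∈ LQ n J ↔ (∃ k ∈ LK n J, u = nW k) ∨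
    (∃ k ∈ LK n J, u = nV n k) ∨ (∃ k ∈ LG n J, u = nT k) ∨
    ∃ k ∈ LK n J, ∃ k' ∈ LK n J, ∃ l b, 1 ≤ l ∧ l ≤ n ∧ u = nC k k' l b := by
  simp only [LQ, List.mem_append, List.mem_map, List.mem_flatMap, List.mem_range,
    List.mem_cons, List.not_mem_nil, or_false, eq_comm (a := u)]
  refine or_congr Iff.rfl (or_congr Iff.rfl (or_congr Iff.rfl ?_))
  refine exists_congr fun k => and_congr Iff.rfl (exists_congr fun k' => and_congr Iff.rfl ?_)
  constructor
  · rintro ⟨l, hl, rfl | rfl⟩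
    · exact ⟨l + 1, false, by omega, by omega, rfl⟩
    · exact ⟨l + 1, true, by omega, by omega, rfl⟩
  · rintro ⟨l, b, h1, h2, rfl⟩
    refine ⟨l - 1, by omega, ?_⟩
    rw [Nat.sub_add_cancel h1]
    cases b
    · left; rfl
    · right; rfl

/-- level of an element of `Q` -/
def lev (u : QN) : ℕ := u.2.2.2.1

/-- order of `P` -/
def ltP (a a' : PN) : Prop := a.1 < a'.1

/-- order of `Q` -/
def ltQ (n J : ℕ) (al fr : K → Bool) : QN → QN → Prop := layLt lev (edge n J al fr)

theorem lev_le {n J : ℕ} {u : QN} (hu : u ∈ LQ n J) : lev u ≤ n + 1 := by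
  rcases mem_LQ.mp hu with ⟨k, -, rfl⟩ | ⟨k, -, rfl⟩ | ⟨k, hk, rfl⟩ | ⟨k, -, k', -, l, b, -, h, rfl⟩
  · simp [lev, nW]
  · simp [lev, nV]
  · have := mem_LG.mp hk
    simp only [lev, nT]; omega
  · simp only [lev, nC]; omega

section paths

variable {n J : ℕ} {al fr : K → Bool} {u : ℕ → QN}

theorem eq_nW (hu : u 0 ∈ LQ n J ∧ lev (u 0) = 0) : ∃ k ∈ LK n J, u 0 = nW k := by
  obtain ⟨h1, h2⟩ := hu
  rcases mem_LQ.mp h1 with h | ⟨k, -, h⟩ | ⟨k, hk, h⟩ | ⟨k, -, k', -, l, b, h3, -, h⟩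
  · exact h
  · rw [h] at h2; simp [lev, nV] at h2
  · have := mem_LG.mp hk
    rw [h] at h2; simp only [lev, nT] at h2; omega
  · rw [h] at h2; simp only [lev, nC] at h2; omega

theorem eq_nV {v : QN} (h1 : v ∈ LQ n J) (h2 : lev v = n + 1) : ∃ k ∈ LK n J, v = nV n k := by
  rcases mem_LQ.mp h1 with ⟨k, -, h⟩ | h | ⟨k, hk, h⟩ | ⟨k, -, k', -, l, b, -, h3, h⟩
  · rw [h] at h2; simp [lev, nW] at h2
  · exact h
  · have := mem_LG.mp hk
    rw [h] at h2; simp only [lev, nT] at h2; omega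
  · rw [h] at h2; simp only [lev, nC] at h2; omega

theorem fstK_lev (fr : K → Bool) (k : K) : (fstK fr k).2.1 = k.2.1 := by
  unfold fstK; split_ifs <;> rfl

/-- below the special level, a cube is private back to its bottom node -/
theorem back_cube (hu : ∀ i ≤ n + 1, u i ∈ LQ n J ∧ lev (u i) = i)
    (he : ∀ i < n + 1, edge n J al fr (u i) (u (i + 1))) {k k' : K} :
    ∀ i ≤ n, inCube fr k k' (u i) → (k ≠ k' ∨ i < k.2.1) → u 0 = nW k := by
  intro i
  induction i with
  | zero =>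
    intro _ hc _
    obtain ⟨k0, -, h⟩ := eq_nW (hu 0 (by omega))
    rw [h] at hc ⊢
    simp only [inCube, nW] at hc
    simp at hc
    rw [hc]
  | succ i ih =>
    intro hi hc hk
    obtain ⟨h1, h2⟩ := hu (i + 1) (by omega)
    have h3 := he i (by omega)
    rcases mem_LQ.mp h1 with ⟨k0, -, h⟩ | ⟨k0, -, h⟩ | ⟨k0, -, h⟩ | ⟨k1, -, k2, -, l, b, -, -, h⟩
    · rw [h] at h2; simp [lev, nW] at h2
    · rw [h] at h2; simp only [lev, nV] at h2; omega
    · exfalso
      rw [h] at h2 hc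
      simp only [lev, nT] at h2
      simp only [inCube, nT] at hc
      simp at hc
      obtain ⟨rfl, hc⟩ := hc
      rcases hk with hk | hk
      · exact hk rfl
      · rcases hc with hc | hc
        · rw [hc, fstK_lev] at h2; omega
        · rw [hc] at h2; simp only [sndK] at h2; omega
    · rw [h] at hc h3
      simp only [inCube, nC] at hc
      simp at hc
      obtain ⟨rfl, rfl, -⟩ := hc
      rcases h3 with ⟨j, -, -, -, h4⟩ | ⟨κ, -, κ', -, -, h4, h5⟩
      · simp [inTerm, nC] at h4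
      · simp only [inCube, nC] at h5
        simp at h5
        obtain ⟨rfl, rfl, -⟩ := h5
        exact ih (by omega) h4 (hk.imp id fun h => by omega)

/-- a path from the bottom to the top node of a gadget passes through its pair -/
theorem gadget_path (hu : ∀ i ≤ n + 1, u i ∈ LQ n J ∧ lev (u i) = i)
    (he : ∀ i < n + 1, edge n J al fr (u i) (u (i + 1))) {k : K} (hk : k ∈ LG n J)
    (h0 : u 0 = nW k) (h1 : u (n + 1) = nV n k) :
    u k.2.1 = nT (fstK fr k) ∨ u k.2.1 = nT (sndK k) := by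
  obtain ⟨-, k1, k2⟩ := mem_LG.mp hk
  have hn : inCube fr k k (u n) := by
    have h3 := he n (by omega)
    rw [h1] at h3
    rcases h3 with ⟨j, -, -, -, h4⟩ | ⟨κ, -, κ', -, -, h4, h5⟩
    · simp [inTerm, nV, ne_main hk] at h4
    · simp only [inCube, nV] at h5
      simp at h5
      subst h5
      by_cases hκ : κ = k
      · exact hκ ▸ h4
      · have := back_cube hu he n le_rfl h4 (Or.inl hκ)
        rw [h0] at this
        simp only [nW, Prod.mk.injEq] at this
        exact absurd this.2.1.symm hκ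
  have hd : ∀ d, d + k.2.1 ≤ n → inCube fr k k (u (n - d)) := by
    intro d
    induction d with
    | zero => intro _; exact hn
    | succ d ih =>
      intro hd
      have h2 := ih (by omega)
      have h3 := he (n - (d + 1)) (by omega)
      rw [show n - (d + 1) + 1 = n - d by omega] at h3
      obtain ⟨h4, h5⟩ := hu (n - d) (by omega)
      rcases mem_LQ.mp h4 with ⟨k0, -, h⟩ | ⟨k0, -, h⟩ | ⟨k0, -, h⟩ | ⟨a, -, a', -, l, b, -, -, h⟩
      · rw [h] at h5; simp only [lev, nW] at h5; omega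
      · rw [h] at h5; simp only [lev, nV] at h5; omega
      · exfalso
        rw [h] at h5 h2
        simp only [lev, nT] at h5
        simp only [inCube, nT] at h2
        simp at h2
        rcases h2 with hc | hc
        · rw [hc, fstK_lev] at h5; omega
        · rw [hc] at h5; simp only [sndK] at h5; omega
      · rw [h] at h2 h3
        simp only [inCube, nC] at h2
        simp at h2
        obtain ⟨rfl, rfl, -⟩ := h2
        rcases h3 with ⟨j, -, -, -, h6⟩ | ⟨κ, -, κ', -, -, h6, h7⟩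
        · simp [inTerm, nC] at h6
        · simp only [inCube, nC] at h7
          simp at h7
          obtain ⟨rfl, rfl, -⟩ := h7
          exact h6
  have h2 := hd (n - k.2.1) (by omega)
  rw [show n - (n - k.2.1) = k.2.1 by omega] at h2
  obtain ⟨h4, h5⟩ := hu k.2.1 (by omega)
  rcases mem_LQ.mp h4 with ⟨k0, -, h⟩ | ⟨k0, -, h⟩ | ⟨k0, -, h⟩ | ⟨a, -, a', -, l, b, -, -, h⟩
  · rw [h] at h5; simp only [lev, nW] at h5; omega
  · rw [h] at h5; simp only [lev, nV] at h5; omega
  · rw [h] at h2 ⊢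
    simp only [inCube, nT] at h2
    simp at h2
    rcases h2 with hc | hc
    · left; rw [hc]
    · right; rw [hc]
  · exfalso
    rw [h] at h2 h5
    simp only [lev, nC] at h5
    simp only [inCube, nC] at h2
    simp at h2
    exact h2.2.2 h5.symm

/-- a path between the main nodes stays in one term -/
theorem main_path (hu : ∀ i ≤ n + 1, u i ∈ LQ n J ∧ lev (u i) = i)
    (he : ∀ i < n + 1, edge n J al fr (u i) (u (i + 1)))
    (h0 : u 0 = nW main) (h1 : u (n + 1) = nV n main) :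
    ∃ j, 0 < j ∧ j < J ∧ ∀ l, 1 ≤ l → l ≤ n → ∃ b, al (j, l, b) = true ∧ u l = nT (j, l, b) := by
  have hn : ∃ j, 0 < j ∧ j < J ∧ inTerm al j (u n) := by
    have h3 := he n (by omega)
    rw [h1] at h3
    rcases h3 with ⟨j, a1, a2, a3, -⟩ | ⟨κ, -, κ', -, a1, h4, h5⟩
    · exact ⟨j, by omega, List.mem_range.mp a1, a3⟩
    · exfalso
      simp only [inCube, nV] at h5
      simp at h5
      subst h5
      have hκ : κ ≠ main := fun h => a1 ⟨h, rfl⟩
      have := back_cube hu he n le_rfl h4 (Or.inl hκ)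
      rw [h0] at this
      simp only [nW, Prod.mk.injEq] at this
      exact absurd this.2.1.symm hκ
  obtain ⟨j, j1, j2, hn⟩ := hn
  have hT : ∀ l, 1 ≤ l → l ≤ n → inTerm al j (u l) →
      ∃ b, al (j, l, b) = true ∧ u l = nT (j, l, b) := by
    intro l l1 l2 ht
    obtain ⟨h4, h5⟩ := hu l (by omega)
    rcases mem_LQ.mp h4 with ⟨k0, -, h⟩ | ⟨k0, -, h⟩ | ⟨k0, -, h⟩ | ⟨a, -, a', -, l, b, -, -, h⟩
    · rw [h] at h5; simp only [lev, nW] at h5; omega
    · rw [h] at h5; simp only [lev, nV] at h5; omega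
    · rw [h] at h5 ht ⊢
      obtain ⟨j0, l0, b0⟩ := k0
      simp only [lev, nT] at h5
      simp only [inTerm, nT] at ht
      simp at ht
      obtain ⟨rfl, ht⟩ := ht
      subst h5
      exact ⟨b0, ht, rfl⟩
    · rw [h] at ht; simp [inTerm, nC] at ht
  have hd : ∀ d, d < n → inTerm al j (u (n - d)) := by
    intro d
    induction d with
    | zero => intro _; exact hn
    | succ d ih =>
      intro hd
      obtain ⟨b, -, h2⟩ := hT (n - d) (by omega) (by omega) (ih (by omega))
      have h3 := he (n - (d + 1)) (by omega)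
      rw [show n - (d + 1) + 1 = n - d by omega, h2] at h3
      rcases h3 with ⟨j', -, -, h4, h5⟩ | ⟨κ, -, κ', -, a1, h4, h5⟩
      · simp only [inTerm, nT] at h5
        simp at h5
        exact h5.1 ▸ h4
      · exfalso
        simp only [inCube, nT] at h5
        simp at h5
        obtain ⟨rfl, h5⟩ := h5
        have hκ : κ ≠ main := fun h => a1 ⟨h, h⟩
        have hl : κ.2.1 = n - d := by
          rcases h5 with h5 | h5
          · rw [← fstK_lev fr κ, ← h5]
          · have := congrArg (fun k : K => k.2.1) h5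
            simpa [sndK] using this.symm
        have := back_cube hu he (n - (d + 1)) (by omega) h4 (Or.inr (by omega))
        rw [h0] at this
        simp only [nW, Prod.mk.injEq] at this
        exact absurd this.2.1.symm hκ
  refine ⟨j, j1, j2, fun l l1 l2 => hT l l1 l2 ?_⟩
  have := hd (n - l) (by omega)
  rwa [show n - (n - l) = l by omega] at this

end paths

end Pool.Agent.Lib.MP_292d26_lc
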