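import Mathlib
import Pool.Prelude.Def_F_458e953d

/-! Definitions for MP_292d26_lc: the decision problem CHAIN MINOR and the class `Σ_2^p`. -/

namespace Pool.Agent.Lib.MP_292d26_lc

open N68a2faeb

/-- The relation on `{0, ..., n-1}` (`n` the number of rows) given by a Boolean matrix:
`i < j` iff the entry `(i, j)` is `true`. -/
def matLt (M : List (List Bool)) (i j : Fin M.length) : Prop :=
  (M.getD i []).getD j false = true

/-- `M` is a square matrix and its relation is a strict partial order. -/
def IsPosetMatrix (M : List (List Bool)) : Prop :=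
  (∀ row ∈ M, row.length = M.length) ∧ (∀ i, ¬ matLt M i i) ∧
    ∀ i j k, matLt M i j → matLt M j k → matLt M i k

/-- `P` is a chain minor of `Q`: there is `f : V_Q → V_P` such that every chain
`c_1 < ... < c_m` of `P` is the termwise image of a chain `c'_1 < ... < c'_m` of `Q`. -/
def IsChainMinor (P Q : List (List Bool)) : Prop :=
  ∃ f : Fin Q.length → Fin P.length, ∀ c : List (Fin P.length), c.IsChain (matLt P) →
    ∃ c' : List (Fin Q.length), c'.IsChain (matLt Q) ∧ c'.map f = c

open Classical in
/-- The language CHAIN MINOR: codes of pairs `(P, Q)` of posets with `P` a chain minor of `Q`. -/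
noncomputable def chainMinor : DecisionProblem := fun x =>
  decide (∃ P Q : List (List Bool), x = N487b59b3.bitEncode (P, Q) ∧
    IsPosetMatrix P ∧ IsPosetMatrix Q ∧ IsChainMinor P Q)

/-- The second level `Σ_2^p` of the polynomial hierarchy. -/
def Sigma2P : DecisionComplexityClass :=
  {L | ∃ (p : Polynomial ℕ) (R : List Bool × List Bool × List Bool → Bool), IsPolyTime R ∧
    ∀ x, L x ↔ ∃ u : List Bool, u.length ≤ p.eval x.length ∧
      ∀ v : List Bool, v.length ≤ p.eval x.length → R (x, u, v)}

end Pool.Agent.Lib.MP_292d26_lc
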