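import Pool.Agent.Lib.MP_292d26_lc.Collapse
import Pool.Agent.Lib.Complexity.CookLevin

/-! Discharging the simulation and satisfiability hypotheses. -/

namespace Pool.Agent.Lib.MP_292d26_lc

open Pool.Agent.Lib.Complexity N487b59b3 N68a2faeb

theorem sim2 (R : Str × Str → Bool) (h : IsPolyTime R) : PT R := pt_of_isPolyTime_rel h

theorem sim3 (R : Str × Str × Str → Bool) (h : IsPolyTime R) : PT R :=
  (pt_of_isPolyTime h).of_eq fun a => by
    rw [up_bool, down_prod, down_prod, down_str, down_str, down_str]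

theorem cl (R : Str × Str → Bool) (q : Polynomial ℕ) (hR : PT R) : ∃ ψ : Str → Cnf, PT ψ ∧
    ∀ x w : Str, w.length = q.eval x.length → (R (x, w) = true ↔
      ∃ α : ℕ → Bool, (∀ i < w.length, α i = w.getD i false) ∧ Sat (ψ x) α) := by
  obtain ⟨ψ, hψ, e⟩ := cook_levin_pt hR
  refine ⟨fun x => ψ (x, q.eval x.length), hψ.comp (PT.prodMk PT.id
    (PT.poly_eval (by fun_prop) q)), fun x w hw => ?_⟩
  rw [e, hw]
  refine exists_congr fun α => and_congr (forall_congr' fun i => forall_congr' fun hi => ?_) Iff.rfl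
  have hi' : i < w.length := hw ▸ hi
  rw [List.getD_eq_getElem?_getD, List.getElem?_eq_getElem hi', Option.getD_some, Option.some_inj]
  exact eq_comm

theorem chainMinor_complete : N793a5b8e.IsCompleteFor Sigma2P chainMinor := by
  refine ⟨chainMinor_mem, ?_⟩
  rintro L ⟨p, R, hR, hL⟩
  obtain ⟨f, hf, e⟩ := hard_of_cookLevin cl p R (sim3 R hR) hL
  exact manyOne_of_PT hf e

theorem chainMinor_NP_iff : chainMinor ∈ NP ↔ NP = coNP :=
  mem_NP_iff_of_cookLevin sim2 sim3 cl

end Pool.Agent.Lib.MP_292d26_lc
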