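import Pool.Agent.Lib.MP_292d26_lc.Core

/-! Correctness of the reduction from the covering problem to CHAIN MINOR. -/

namespace Pool.Agent.Lib.MP_292d26_lc

variable {n J : ℕ} {al fr : K → Bool}

/-- the section of `P` with given ends and middle bits -/
def sec (n : ℕ) (k k' : K) (α : ℕ → Bool) (i : ℕ) : PN :=
  if i = 0 then (0, k) else if i = n + 1 then (n + 1, k') else (i, (0, 0, α i))

theorem sec_mem {k k' : K} (hk : k ∈ LK n J) (hk' : k' ∈ LK n J) (α : ℕ → Bool) :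
    ∀ i ≤ n + 1, sec n k k' α i ∈ LP n J ∧ (sec n k k' α i).1 = i := by
  intro i hi
  unfold sec
  split_ifs with h1 h2
  · exact ⟨mem_LP.mpr (Or.inl ⟨rfl, hk⟩), h1.symm⟩
  · exact ⟨mem_LP.mpr (Or.inr (Or.inl ⟨rfl, hk'⟩)), h2.symm⟩
  · exact ⟨mem_LP.mpr (Or.inr (Or.inr ⟨by simp; omega, by simp; omega, _, rfl⟩)), rfl⟩

theorem bij_aux {S : List K} {B : Type} (g : K → B) (h : K → B)
    (hinj : Function.Injective h) (hs : ∀ k ∈ S, ∃ k1 ∈ S, g k1 = h k) :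
    ∃ τ : K → K, (∀ k ∈ S, τ k ∈ S ∧ g k = h (τ k)) ∧
      ∀ k ∈ S, ∀ k' ∈ S, τ k = τ k' → k = k' := by
  classical
  choose! σ hσ1 hσ2 using hs
  have hb : Set.BijOn σ {k | k ∈ S} {k | k ∈ S} :=
    ((List.finite_toSet S).injOn_iff_bijOn_of_mapsTo hσ1).mp fun a ha b hb hab =>
      hinj (by rw [← hσ2 a ha, ← hσ2 b hb, hab])
  have hsurj : ∀ k ∈ S, ∃ a ∈ S, σ a = k := fun k hk => hb.surjOn hk
  choose! τ hτ1 hτ2 using hsurj
  refine ⟨τ, fun k hk => ⟨hτ1 k hk, ?_⟩, fun k hk k' hk' e => ?_⟩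
  · rw [← hσ2 _ (hτ1 k hk), hτ2 k hk]
  · rw [← hτ2 k hk, e, hτ2 k' hk']

theorem cover_of_cm (hJ : 0 < J) (h : CM (LP n J) (LQ n J) ltP (ltQ n J al fr)) :
    Cover n J al fr := by
  obtain ⟨f, -, hf⟩ := h
  have path : ∀ k ∈ LK n J, ∀ k' ∈ LK n J, ∀ α : ℕ → Bool, ∃ u : ℕ → QN,
      (∀ i ≤ n + 1, u i ∈ LQ n J ∧ lev (u i) = i) ∧
      (∀ i < n + 1, edge n J al fr (u i) (u (i + 1))) ∧
      (∃ k1 ∈ LK n J, u 0 = nW k1 ∧ f (nW k1) = (0, k)) ∧
      (∃ k1 ∈ LK n J, u (n + 1) = nV n k1 ∧ f (nV n k1) = (n + 1, k')) ∧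
      ∀ l, 1 ≤ l → l ≤ n → f (u l) = (l, (0, 0, α l)) := by
    intro k hk k' hk' α
    obtain ⟨u, h1, h2⟩ := path_of_section (la := fun a : PN => a.1) (lb := lev) (m := n + 1)
      (fun b hb => lev_le hb) hf (sec n k k' α) (sec_mem hk hk' α)
    refine ⟨u, fun i hi => ⟨(h1 i hi).1, (h1 i hi).2.1⟩, h2, ?_, ?_, fun l l1 l2 => ?_⟩
    · obtain ⟨k1, a1, a2⟩ := eq_nW (u := u) ⟨(h1 0 (by omega)).1, (h1 0 (by omega)).2.1⟩
      exact ⟨k1, a1, a2, by rw [← a2, (h1 0 (by omega)).2.2]; simp [sec]⟩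
    · obtain ⟨k1, a1, a2⟩ := eq_nV (h1 (n + 1) le_rfl).1 (h1 (n + 1) le_rfl).2.1
      exact ⟨k1, a1, a2, by rw [← a2, (h1 (n + 1) le_rfl).2.2]; simp [sec]⟩
    · rw [(h1 l (by omega)).2.2, sec, if_neg (by omega), if_neg (by omega)]
  obtain ⟨τ, hτ1, hτ2⟩ := bij_aux (S := LK n J) (fun k => f (nW k)) (fun k => ((0, k) : PN))
    (fun a b h => (Prod.mk.inj h).2) (fun k hk => by
      obtain ⟨u, -, -, ⟨k1, a1, -, a2⟩, -⟩ := path k hk k hk fun _ => false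
      exact ⟨k1, a1, a2⟩)
  obtain ⟨τ', hτ1', hτ2'⟩ := bij_aux (S := LK n J) (fun k => f (nV n k))
    (fun k => ((n + 1, k) : PN)) (fun a b h => (Prod.mk.inj h).2) (fun k hk => by
      obtain ⟨u, -, -, -, ⟨k1, a1, -, a2⟩, -⟩ := path k hk k hk fun _ => false
      exact ⟨k1, a1, a2⟩)
  have path' : ∀ k ∈ LK n J, ∀ α : ℕ → Bool, ∃ u : ℕ → QN,
      (∀ i ≤ n + 1, u i ∈ LQ n J ∧ lev (u i) = i) ∧
      (∀ i < n + 1, edge n J al fr (u i) (u (i + 1))) ∧ u 0 = nW k ∧ u (n + 1) = nV n k ∧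
      ∀ l, 1 ≤ l → l ≤ n → f (u l) = (l, (0, 0, α l)) := by
    intro k hk α
    obtain ⟨u, a1, a2, ⟨k1, b1, b2, b3⟩, ⟨k2, c1, c2, c3⟩, a3⟩ :=
      path _ (hτ1 k hk).1 _ (hτ1' k hk).1 α
    have e1 : k1 = k := hτ2 _ b1 _ hk (Prod.mk.inj ((hτ1 k1 b1).2.symm.trans b3)).2
    have e2 : k2 = k := hτ2' _ c1 _ hk (Prod.mk.inj ((hτ1' k2 c1).2.symm.trans c3)).2
    exact ⟨u, a1, a2, e1 ▸ b2, e2 ▸ c2, a3⟩
  have gad : ∀ k ∈ LG n J, ∀ β : Bool, f (nT (fstK fr k)) = (k.2.1, (0, 0, β)) ∨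
      f (nT (sndK k)) = (k.2.1, (0, 0, β)) := by
    intro k hk β
    obtain ⟨u, a1, a2, a3, a4, a5⟩ := path' k (mem_LK.mpr (Or.inr hk)) fun _ => β
    obtain ⟨-, k1, k2⟩ := mem_LG.mp hk
    rcases gadget_path a1 a2 hk a3 a4 with h | h
    · left; rw [← h, a5 _ k1 k2]
    · right; rw [← h, a5 _ k1 k2]
  set lab : K → Bool := fun k => (f (nT k)).2.2.2 with hlab
  have gad' : ∀ k ∈ LG n J, lab (fstK fr k) = !lab (sndK k) := by
    intro k hk
    rcases gad k hk false with h | h <;> rcases gad k hk true with h' | h'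
    · rw [h] at h'; simp at h'
    · simp only [hlab]; rw [h, h']; rfl
    · simp only [hlab]; rw [h, h']; rfl
    · rw [h] at h'; simp at h'
  have href : ∀ l, 1 ≤ l → l ≤ n → lab (0, l, true) = !lab (0, l, false) := by
    intro l l1 l2
    have := gad' (0, l, true) (mem_LG.mpr ⟨hJ, l1, l2⟩)
    simpa [fstK, sndK] using this
  refine ⟨fun k => if fr k then xor (lab k) (lab (0, k.2.1, false)) else k.2.2,
    fun k hk => by simp [hk], fun α => ?_⟩
  obtain ⟨u, a1, a2, a3, a4, a5⟩ := path' main (main_mem n J)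
    fun l => xor (α l) (lab (0, l, false))
  obtain ⟨j, j1, j2, hj⟩ := main_path a1 a2 a3 a4
  refine ⟨j, j1, j2, fun l l1 l2 => ?_⟩
  obtain ⟨b, b1, b2⟩ := hj l l1 l2
  refine ⟨b, b1, ?_⟩
  have h1 : lab (j, l, b) = xor (α l) (lab (0, l, false)) := by
    simp only [hlab]; rw [← b2, a5 l l1 l2]
  by_cases hfr : fr (j, l, b) = true
  · simp [hfr, h1]
  · have h2 := gad' (j, l, b) (mem_LG.mpr ⟨j2, l1, l2⟩)
    have h3 := href l l1 l2
    simp only [fstK, hfr, sndK] at h2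
    simp only [hfr]
    simp only [Bool.false_eq_true, if_false] at h2 ⊢
    rw [h1] at h2
    cases b
    · simp only [Bool.not_false, h3] at h2
      revert h2
      cases α l <;> cases lab (0, l, false) <;> simp
    · simp only [Bool.not_true] at h2
      revert h2
      cases α l <;> cases lab (0, l, false) <;> simp

theorem cm_of_cover (hJ : 0 < J) (h : Cover n J al fr) :
    CM (LP n J) (LQ n J) ltP (ltQ n J al fr) := by
  obtain ⟨t, ht1, ht2⟩ := h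
  let t' : K → Bool := fun k => if k.1 = 0 then k.2.2 else t k
  let f : QN → PN := fun u =>
    if u.1 = 0 then (0, u.2.1) else if u.1 = 1 then (n + 1, u.2.1) else
      if u.1 = 2 then (u.2.1.2.1, (0, 0, t' u.2.1)) else (u.2.2.2.1, (0, 0, u.2.2.2.2))
  have fW : ∀ k, f (nW k) = (0, k) := fun k => by simp [f, nW]
  have fV : ∀ k, f (nV n k) = (n + 1, k) := fun k => by simp [f, nV]
  have fT : ∀ k, f (nT k) = (k.2.1, (0, 0, t' k)) := fun k => by simp [f, nT]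
  have fC : ∀ k k' l b, f (nC k k' l b) = (l, (0, 0, b)) := fun k k' l b => by simp [f, nC]
  refine cm_of_paths (la := fun a : PN => a.1) (lb := lev) (m := n + 1) (f := f) ?_
    (sec n main main fun _ => false) (sec_mem (main_mem n J) (main_mem n J) _) ?_ ?_
  · intro a ha
    rcases mem_LP.mp ha with h | h | h <;> omega
  · intro u hu
    rcases mem_LQ.mp hu with ⟨k, hk, rfl⟩ | ⟨k, hk, rfl⟩ | ⟨k, hk, rfl⟩ |
      ⟨k, -, k', -, l, b, l1, l2, rfl⟩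
    · rw [fW]; exact mem_LP.mpr (Or.inl ⟨rfl, hk⟩)
    · rw [fV]; exact mem_LP.mpr (Or.inr (Or.inl ⟨rfl, hk⟩))
    · rw [fT]
      obtain ⟨-, k1, k2⟩ := mem_LG.mp hk
      exact mem_LP.mpr (Or.inr (Or.inr ⟨k1, k2, _, rfl⟩))
    · rw [fC]; exact mem_LP.mpr (Or.inr (Or.inr ⟨l1, l2, _, rfl⟩))
  intro s hs
  obtain ⟨k, hk, s0⟩ : ∃ k ∈ LK n J, s 0 = (0, k) := by
    obtain ⟨h1, h2⟩ := hs 0 (by omega)
    rcases mem_LP.mp h1 with h | h | h
    · exact ⟨_, h.2, Prod.ext h.1 rfl⟩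
    · omega
    · omega
  obtain ⟨k', hk', s1⟩ : ∃ k ∈ LK n J, s (n + 1) = (n + 1, k) := by
    obtain ⟨h1, h2⟩ := hs (n + 1) le_rfl
    rcases mem_LP.mp h1 with h | h | h
    · omega
    · exact ⟨_, h.2, Prod.ext h.1 rfl⟩
    · omega
  have s2 : ∀ l, 1 ≤ l → l ≤ n → s l = (l, (0, 0, (s l).2.2.2)) := by
    intro l l1 l2
    obtain ⟨h1, h2⟩ := hs l (by omega)
    rcases mem_LP.mp h1 with h | h | ⟨-, -, b, h⟩
    · omega
    · omega
    · exact Prod.ext h2 (by rw [h])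
  set α : ℕ → Bool := fun l => (s l).2.2.2 with hα
  -- it suffices to give the middle nodes inside one component
  suffices H : ∃ (v : ℕ → QN) (cp : QN → Prop), (∀ a b, cp a → cp b → edge n J al fr a b) ∧
      cp (nW k) ∧ cp (nV n k') ∧ ∀ l, 1 ≤ l → l ≤ n →
        v l ∈ LQ n J ∧ lev (v l) = l ∧ f (v l) = (l, (0, 0, α l)) ∧ cp (v l) by
    obtain ⟨v, cp, h1, h2, h3, h4⟩ := H
    refine ⟨fun i => if i = 0 then nW k else if i = n + 1 then nV n k' else v i, fun i hi => ?_,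
      fun i hi => h1 _ _ ?_ ?_⟩
    · beta_reduce
      split_ifs with a1 a2
      · subst a1
        exact ⟨mem_LQ.mpr (Or.inl ⟨k, hk, rfl⟩), rfl, by rw [fW, s0]⟩
      · subst a2
        exact ⟨mem_LQ.mpr (Or.inr (Or.inl ⟨k', hk', rfl⟩)), rfl, by rw [fV, s1]⟩
      · obtain ⟨b1, b2, b3, -⟩ := h4 i (by omega) (by omega)
        exact ⟨b1, b2, by rw [b3, s2 i (by omega) (by omega)]⟩
    · beta_reduce
      split_ifs with a1 a2
      · exact h2
      · exact h3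
      · exact (h4 i (by omega) (by omega)).2.2.2
    · beta_reduce
      rw [if_neg (Nat.succ_ne_zero i)]
      split_ifs with a2
      · exact h3
      · exact (h4 (i + 1) (by omega) (by omega)).2.2.2
  by_cases hm : k = main ∧ k' = main
  · obtain ⟨rfl, rfl⟩ := hm
    obtain ⟨j, j1, j2, hj⟩ := ht2 α
    choose! b hb1 hb2 using hj
    refine ⟨fun l => nT (j, l, b l), inTerm al j, fun a c ha hc =>
      Or.inl ⟨j, List.mem_range.mpr j2, by omega, ha, hc⟩, by simp [inTerm, nW],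
      by simp [inTerm, nV], fun l l1 l2 => ⟨?_, rfl, ?_, ?_⟩⟩
    · exact mem_LQ.mpr (Or.inr (Or.inr (Or.inl ⟨_, mem_LG.mpr ⟨j2, l1, l2⟩, rfl⟩)))
    · rw [fT]
      simp only [t', if_neg (Nat.pos_iff_ne_zero.mp j1), hb2 l l1 l2]
    · simp [inTerm, nT, hb1 l l1 l2]
  · refine ⟨fun l => if k = k' ∧ k.2.1 = l then
        (if α l = k.2.2 then nT (fstK fr k) else nT (sndK k)) else nC k k' l (α l),
      inCube fr k k', fun a c ha hc => Or.inr ⟨k, hk, k', hk', hm, ha, hc⟩,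
      by simp [inCube, nW], by simp [inCube, nV], fun l l1 l2 => ?_⟩
    beta_reduce
    split_ifs with a1 a2
    · obtain ⟨rfl, rfl⟩ := a1
      have hG : k ∈ LG n J := (mem_LK.mp hk).resolve_left fun h => hm ⟨h, h⟩
      refine ⟨mem_LQ.mpr (Or.inr (Or.inr (Or.inl ⟨_, ?_, rfl⟩))), fstK_lev fr k, ?_,
        by simp [inCube, nT]⟩
      · unfold fstK
        split_ifs
        · exact mem_LG.mpr ⟨hJ, l1, l2⟩
        · exact hG
      · rw [fT, fstK_lev, a2]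
        unfold fstK
        split_ifs with hfr
        · simp [t']
        · simp only [t']
          split_ifs
          · rfl
          · rw [ht1 k (by simpa using hfr)]
    · obtain ⟨rfl, rfl⟩ := a1
      refine ⟨mem_LQ.mpr (Or.inr (Or.inr (Or.inl ⟨sndK k, mem_LG.mpr ⟨hJ, l1, l2⟩, rfl⟩))), rfl,
        ?_, by simp [inCube, nT]⟩
      rw [fT]
      simp only [sndK, t', if_true]
      revert a2
      cases α k.2.1 <;> cases k.2.2 <;> simp
    · refine ⟨mem_LQ.mpr (Or.inr (Or.inr (Or.inr ⟨k, hk, k', hk', l, _, l1, l2, rfl⟩))), rfl,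
        fC _ _ _ _, ?_⟩
      simp only [inCube, nC]
      exact Or.inr (Or.inr (Or.inr ⟨trivial, trivial, trivial, a1⟩))

theorem cm_iff_cover (hJ : 0 < J) :
    CM (LP n J) (LQ n J) ltP (ltQ n J al fr) ↔ Cover n J al fr :=
  ⟨cover_of_cm hJ, cm_of_cover hJ⟩

end Pool.Agent.Lib.MP_292d26_lc
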