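import Pool.Agent.Lib.MP_292d26_lc.Defs
import Pool.Agent.Lib.MP_292d26_lc.Reduction

/-! From lists of elements with a Boolean order test to matrices. -/

namespace Pool.Agent.Lib.MP_292d26_lc

/-- chain minor relation between types -/
def CMt {A B : Type} (ltA : A → A → Prop) (ltB : B → B → Prop) : Prop :=
  ∃ f : B → A, ∀ c : List A, c.IsChain ltA → ∃ c' : List B, c'.IsChain ltB ∧ c'.map f = c

theorem CMt.equiv {A B A' B' : Type} {ltA : A → A → Prop} {ltB : B → B → Prop}
    {ltA' : A' → A' → Prop} {ltB' : B' → B' → Prop} (eA : A ≃ A') (eB : B ≃ B')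
    (hA : ∀ a b, ltA' (eA a) (eA b) → ltA a b) (hB : ∀ a b, ltB a b → ltB' (eB a) (eB b))
    (h : CMt ltA ltB) : CMt ltA' ltB' := by
  obtain ⟨f, hf⟩ := h
  refine ⟨fun b => eA (f (eB.symm b)), fun c hc => ?_⟩
  obtain ⟨d, h1, h2⟩ := hf (c.map eA.symm) (by
    rw [List.isChain_map]
    exact hc.imp fun a b hab => hA _ _ (by simpa using hab))
  refine ⟨d.map eB, ?_, ?_⟩
  · rw [List.isChain_map]
    exact h1.imp fun a b hab => hB _ _ hab
  · have := congrArg (List.map eA) h2
    simpa [List.map_map, Function.comp_def] using this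

theorem cm_iff_cmt {A B : Type} [Inhabited A] (LA : List A) (LB : List B) (ltA : A → A → Prop)
    (ltB : B → B → Prop) :
    CM LA LB ltA ltB ↔ CMt (fun a b : {a // a ∈ LA} => ltA a b)
      (fun a b : {b // b ∈ LB} => ltB a b) := by
  classical
  constructor
  · rintro ⟨f, hf, h⟩
    refine ⟨fun b => ⟨f b, hf _ b.2⟩, fun c hc => ?_⟩
    obtain ⟨d, h1, h2, h3⟩ := h (c.map Subtype.val) (by
      intro a ha
      obtain ⟨a', -, rfl⟩ := List.mem_map.mp ha
      exact a'.2) (by rw [List.isChain_map]; exact hc)
    refine ⟨d.pmap Subtype.mk h1, ?_, ?_⟩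
    · rw [← List.isChain_map Subtype.val]
      simpa [List.map_pmap] using h2
    · apply List.map_injective_iff.mpr Subtype.val_injective
      rw [← h3]
      simp [List.map_pmap]
  · rintro ⟨f, h⟩
    refine ⟨fun b => if hb : b ∈ LB then (f ⟨b, hb⟩).1 else default, fun b hb => ?_,
      fun c hc hch => ?_⟩
    · simp only [hb, dif_pos]
      exact (f ⟨b, hb⟩).2
    · obtain ⟨d, h1, h2⟩ := h (c.pmap Subtype.mk hc) (by
        rw [← List.isChain_map Subtype.val]
        simpa [List.map_pmap] using hch)
      refine ⟨d.map Subtype.val, fun b hb => ?_, by rw [List.isChain_map]; exact h1, ?_⟩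
      · obtain ⟨b', -, rfl⟩ := List.mem_map.mp hb
        exact b'.2
      · have := congrArg (List.map Subtype.val) h2
        simp only [List.map_map, List.map_pmap, List.pmap_eq_map, List.map_id'] at this ⊢
        rw [← this]
        refine List.map_congr_left fun b _ => ?_
        simp [b.2]

theorem CM.congr_mem {A B : Type} {LA LA' : List A} {LB LB' : List B} {ltA : A → A → Prop}
    {ltB : B → B → Prop} (hA : ∀ a, a ∈ LA ↔ a ∈ LA') (hB : ∀ b, b ∈ LB ↔ b ∈ LB') :
    CM LA LB ltA ltB ↔ CM LA' LB' ltA ltB := by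
  simp only [CM, hA, hB]

/-- the matrix of a Boolean relation on the elements of a list -/
def mat {A : Type} (L : List A) (lt : A → A → Bool) : List (List Bool) :=
  L.map fun a => L.map fun b => lt a b

theorem length_mat {A : Type} (L : List A) (lt : A → A → Bool) : (mat L lt).length = L.length := by
  simp [mat]

theorem matLt_mat {A : Type} (L : List A) (lt : A → A → Bool) (i j : Fin (mat L lt).length) :
    matLt (mat L lt) i j ↔
      lt (L[i.1]'(length_mat L lt ▸ i.2)) (L[j.1]'(length_mat L lt ▸ j.2)) = true := by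
  have hi : i.1 < L.length := length_mat L lt ▸ i.2
  have hj : j.1 < L.length := length_mat L lt ▸ j.2
  simp [matLt, mat, List.getD_eq_getElem?_getD, List.getElem?_eq_getElem hi,
    List.getElem?_eq_getElem hj]

theorem isPosetMatrix_mat {A : Type} (L : List A) (lt : A → A → Bool)
    (h1 : ∀ a, ¬ lt a a = true) (h2 : ∀ a b c, lt a b = true → lt b c = true → lt a c = true) :
    IsPosetMatrix (mat L lt) := by
  refine ⟨fun row hrow => ?_, fun i => ?_, fun i j k => ?_⟩
  · obtain ⟨a, -, rfl⟩ := List.mem_map.mp hrow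
    simp [mat]
  · rw [matLt_mat]; exact h1 _
  · simp only [matLt_mat]; exact h2 _ _ _

/-- positions of a list without duplicates -/
def posEquiv {A : Type} [DecidableEq A] (L : List A) (h : L.Nodup) (lt : A → A → Bool) :
    Fin (mat L lt).length ≃ {a // a ∈ L} :=
  (finCongr (length_mat L lt)).trans (List.Nodup.getEquiv L h)

theorem posEquiv_val {A : Type} [DecidableEq A] (L : List A) (h : L.Nodup) (lt : A → A → Bool)
    (i : Fin (mat L lt).length) :
    (posEquiv L h lt i).1 = L[i.1]'(length_mat L lt ▸ i.2) := rfl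

theorem isChainMinor_mat {A B : Type} [Inhabited A] [DecidableEq A] [DecidableEq B]
    {LA : List A} {LB : List B} (hA : LA.Nodup) (hB : LB.Nodup) (ltA : A → A → Bool)
    (ltB : B → B → Bool) :
    IsChainMinor (mat LA ltA) (mat LB ltB) ↔
      CM LA LB (fun a b => ltA a b = true) (fun a b => ltB a b = true) := by
  rw [cm_iff_cmt]
  constructor
  · exact CMt.equiv (posEquiv LA hA ltA) (posEquiv LB hB ltB)
      (fun a b h => (matLt_mat _ _ _ _).mpr h) (fun a b h => (matLt_mat _ _ _ _).mp h)
  · refine CMt.equiv (posEquiv LA hA ltA).symm (posEquiv LB hB ltB).symm (fun a b h => ?_)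
      (fun a b h => ?_)
    · rw [matLt_mat, ← posEquiv_val LA hA, ← posEquiv_val LA hA] at h
      simpa using h
    · rw [matLt_mat, ← posEquiv_val LB hB, ← posEquiv_val LB hB]
      simpa using h

/-- the matrix relation on natural numbers -/
def ltM (M : List (List Bool)) (i j : ℕ) : Bool := (M.getD i []).getD j false

theorem isChainMinor_iff_range (P Q : List (List Bool)) :
    IsChainMinor P Q ↔ CM (List.range P.length) (List.range Q.length)
      (fun a b => ltM P a b = true) (fun a b => ltM Q a b = true) := by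
  rw [cm_iff_cmt]
  let e : ∀ n : ℕ, Fin n ≃ {a // a ∈ List.range n} := fun n =>
    { toFun := fun i => ⟨i.1, List.mem_range.mpr i.2⟩
      invFun := fun a => ⟨a.1, List.mem_range.mp a.2⟩
      left_inv := fun _ => rfl
      right_inv := fun _ => rfl }
  constructor
  · exact CMt.equiv (e _) (e _) (fun a b h => h) (fun a b h => h)
  · exact CMt.equiv (e _).symm (e _).symm (fun a b h => h) (fun a b h => h)

theorem isPosetMatrix_iff_range (M : List (List Bool)) :
    IsPosetMatrix M ↔ (∀ row ∈ M, row.length = M.length) ∧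
      (∀ i ∈ List.range M.length, ¬ ltM M i i = true) ∧
      ∀ i ∈ List.range M.length, ∀ j ∈ List.range M.length, ∀ k ∈ List.range M.length,
        ¬ (ltM M i j = true ∧ ltM M j k = true) ∨ ltM M i k = true := by
  refine and_congr Iff.rfl (and_congr ?_ ?_)
  · exact ⟨fun h i hi => h ⟨i, List.mem_range.mp hi⟩, fun h i => h i (List.mem_range.mpr i.2)⟩
  · constructor
    · intro h i hi j hj k hk
      by_cases h1 : ltM M i j = true ∧ ltM M j k = true
      · exact Or.inr (h ⟨i, List.mem_range.mp hi⟩ ⟨j, List.mem_range.mp hj⟩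
          ⟨k, List.mem_range.mp hk⟩ h1.1 h1.2)
      · exact Or.inl h1
    · intro h i j k h1 h2
      exact (h i (List.mem_range.mpr i.2) j (List.mem_range.mpr j.2) k
        (List.mem_range.mpr k.2)).resolve_left fun h3 => h3 ⟨h1, h2⟩

end Pool.Agent.Lib.MP_292d26_lc
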