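import Pool.Agent.Lib.MP_292d26_lc.Verify
import Pool.Agent.Lib.Complexity.Bridge

/-! CHAIN MINOR lies in the second level of the polynomial hierarchy. -/

namespace Pool.Agent.Lib.MP_292d26_lc

open Pool.Agent.Lib.Complexity N487b59b3 N68a2faeb

theorem up_mat (M : Mat) : Rep.up M = M := by
  rw [up_list]
  conv_rhs => rw [← List.map_id M]
  exact List.map_congr_left fun l _ => up_str l

theorem down_mat (M : Mat) : (Rep.down M : Mat) = M := by
  rw [down_list]
  conv_rhs => rw [← List.map_id M]
  exact List.map_congr_left fun l _ => down_str l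

@[fun_prop] theorem pt_decode {α : Type} [Enc α] {l : α → Str} (hl : PT l) :
    PT fun a => (bitDecode (l a) : Option (Mat × Mat)) :=
  (PT.decode (Mat × Mat) hl).of_eq fun a => by
    cases (bitDecode (l a) : Option (Mat × Mat)) with
    | none => rfl
    | some p => simp only [Option.map_some, up_prod, up_mat]

@[fun_prop] theorem pt_encode {α : Type} [Enc α] {f : α → Mat × Mat} (hf : PT f) :
    PT fun a => bitEncode (f a) :=
  (PT.encode (Mat × Mat) hf).of_eq fun a => by simp only [down_prod, down_mat]

theorem isPolyTime_rel3 {f : Str × Str × Str → Bool} (h : PT f) : IsPolyTime f :=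
  isPolyTime_of_rep h fun a => by rw [up_prod, up_prod, up_str, up_str, up_str, down_bool]

theorem length_le_bitEncode (M : Mat) : M.length ≤ (bitEncode M).length := by
  have := length_le_length_flatten_delimit (M.map bitEncode)
  rw [List.length_map] at this
  exact this

theorem length_le_pair (P Q : Mat) :
    P.length ≤ (bitEncode (P, Q)).length ∧ Q.length ≤ (bitEncode (P, Q)).length := by
  have h : bitEncode (P, Q) = delimit (bitEncode P) ++ bitEncode Q := rfl
  have := length_le_bitEncode P
  have := length_le_bitEncode Q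
  rw [h, List.length_append, length_delimit]
  omega

/-- the verifier -/
def verifier (t : Str × Str × Str) : Bool :=
  (bitDecode t.1 : Option (Mat × Mat)).elim false fun PQ =>
    decide (bitEncode PQ = t.1) && checkB PQ.1 PQ.2 (unDec t.2.1) (unDec t.2.2)

theorem pt_verifier : PT verifier := by unfold verifier; fun_prop

theorem checkB_of_forall {P Q : Mat} {F : List ℕ} {B : ℕ} (hP : P.length ≤ B)
    (h : ∀ c : List ℕ, (c.length ≤ B ∧ ∀ a ∈ c, a ≤ B) → checkB P Q F c = true) (c : List ℕ) :
    checkB P Q F c = true := by
  have h0 := h [] (by simp)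
  by_cases hc : chainB P c = true
  · have h1 : IsPosetMatrix P := by
      simp only [checkB, Bool.and_eq_true, posetB_iff] at h0
      exact h0.1
    exact h c ⟨(chain_length_le h1 hc).trans hP, fun a ha => by
      have := List.mem_range.mp (((chainB_iff P c).mp hc).1 a ha); omega⟩
  · simp only [checkB, Bool.and_eq_true] at h0 ⊢
    exact ⟨h0.1, h0.2.1, h0.2.2.1, by simp [hc]⟩

theorem chainMinor_iff (x : Str) : chainMinor x = true ↔ ∃ P Q : Mat, x = bitEncode (P, Q) ∧
    IsPosetMatrix P ∧ IsPosetMatrix Q ∧ IsChainMinor P Q := by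
  simp only [chainMinor, decide_eq_true_eq]

theorem chainMinor_mem : chainMinor ∈ Sigma2P := by
  refine ⟨Polynomial.X * (Polynomial.X + 1), verifier, isPolyTime_rel3 pt_verifier, fun x => ?_⟩
  simp only [Polynomial.eval_mul, Polynomial.eval_add, Polynomial.eval_X, Polynomial.eval_one]
  rw [chainMinor_iff]
  constructor
  · rintro ⟨P, Q, rfl, h⟩
    obtain ⟨hP, hQ⟩ := length_le_pair P Q
    obtain ⟨F, ⟨F1, F2⟩, hF⟩ := (chainMinor_iff_check P Q hP hQ).mp h
    refine ⟨unEnc F, (length_unEnc F2).trans (Nat.mul_le_mul_right _ F1), fun v _ => ?_⟩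
    simp only [verifier, bitDecode_bitEncode, Option.elim_some, decide_true, Bool.true_and,
      unDec_unEnc]
    exact checkB_of_forall hP hF _
  · rintro ⟨u, -, hu⟩
    have h0 := hu [] (by simp)
    unfold verifier at h0 hu
    cases hd : (bitDecode x : Option (Mat × Mat)) with
    | none => simp [hd] at h0
    | some PQ =>
      obtain ⟨P, Q⟩ := PQ
      simp only [hd, Option.elim_some, Bool.and_eq_true, decide_eq_true_eq] at h0 hu
      have hx := h0.1
      obtain ⟨hP, hQ⟩ := length_le_pair P Q
      rw [hx] at hP hQ
      have h1 : ∀ c : List ℕ, checkB P Q (unDec u) c = true := checkB_of_forall hP fun c hc => by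
        have := hu (unEnc c) ((length_unEnc hc.2).trans (Nat.mul_le_mul_right _ hc.1))
        rw [unDec_unEnc] at this
        exact this.2
      refine ⟨P, Q, hx.symm, (chainMinor_iff_check P Q
        (B := x.length + (unDec u).length + (unDec u).sum) (by omega) (by omega)).mpr
        ⟨unDec u, ⟨by omega, fun a ha => ?_⟩, fun c _ => h1 c⟩⟩
      have := List.single_le_sum (fun x _ => Nat.zero_le x) _ ha
      omega

/-- decoding a padded block of an assignment -/
def decF (N s : ℕ) (α : ℕ → Bool) : Str :=
  ((List.range N).filter fun i => α (s + i)).map fun i => α (s + N + i)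

theorem length_decF (N s : ℕ) (α : ℕ → Bool) : (decF N s α).length ≤ N := by
  simpa [decF] using List.length_filter_le _ (List.range N)

theorem decF_congr {N s : ℕ} {α β : ℕ → Bool} (h : ∀ i, s ≤ i → i < s + 2 * N → α i = β i) :
    decF N s α = decF N s β := by
  unfold decF
  rw [List.filter_congr (q := fun i => β (s + i)) fun i hi =>
    h _ (by omega) (by have := List.mem_range.mp hi; omega)]
  refine List.map_congr_left fun i hi => h _ (by omega) ?_
  have := List.mem_range.mp (List.mem_filter.mp hi).1
  omega

/-- the padded block of a string -/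
def encF (N s : ℕ) (u : Str) (i : ℕ) : Bool :=
  if i < s + N then decide (i - s < u.length) else u.getD (i - s - N) false

theorem decF_encF {N : ℕ} (s : ℕ) {u : Str} (hu : u.length ≤ N) : decF N s (encF N s u) = u := by
  unfold decF
  have h1 : (List.range N).filter (fun i => encF N s u (s + i)) = List.range u.length := by
    rw [List.filter_congr (q := fun i => decide (i < u.length)) fun i hi => by
      have := List.mem_range.mp hi
      simp [encF, this]]
    obtain ⟨d, rfl⟩ := Nat.exists_eq_add_of_le hu
    rw [List.range_add, List.filter_append, List.filter_eq_self.mpr (by simp),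
      List.filter_eq_nil_iff.mpr (by simp), List.append_nil]
  rw [h1]
  apply List.ext_getElem (by simp)
  intro i h2 h3
  simp only [List.getElem_map, List.getElem_range, encF]
  rw [if_neg (by omega), show s + N + i - s - N = i by omega, List.getD_eq_getElem _ _ h3]

theorem getD_map_range (α : ℕ → Bool) {M i : ℕ} (h : i < M) :
    ((List.range M).map α).getD i false = α i := by
  rw [List.getD_eq_getElem _ _ (by simpa using h)]
  simp

theorem pt_decF {α : Type} [Enc α] {N s : α → ℕ} {w : α → Str} (h1 : PT N) (h2 : PT s)
    (h3 : PT w) : PT fun a => decF (N a) (s a) fun i => (w a).getD i false := by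
  unfold decF; fun_prop

theorem hard_of_cookLevin
    (cl : ∀ (R : Str × Str → Bool) (q : Polynomial ℕ), PT R → ∃ ψ : Str → Cnf, PT ψ ∧
      ∀ x w : Str, w.length = q.eval x.length → (R (x, w) = true ↔
        ∃ α : ℕ → Bool, (∀ i < w.length, α i = w.getD i false) ∧ Sat (ψ x) α))
    {L : DecisionProblem} (p : Polynomial ℕ) (R : Str × Str × Str → Bool) (hR : PT R)
    (hL : ∀ x, L x ↔ ∃ u : Str, u.length ≤ p.eval x.length ∧
      ∀ v : Str, v.length ≤ p.eval x.length → R (x, u, v)) :
    ∃ f : Str → Str, PT f ∧ ∀ x, L x = chainMinor (f x) := by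
  have hp : PT fun t : Str × Str => p.eval t.1.length := PT.poly_eval (by fun_prop) p
  obtain ⟨ψ, hψ, h⟩ := cl (fun t => !R (t.1,
      decF (p.eval t.1.length) 0 (fun i => t.2.getD i false),
      decF (p.eval t.1.length) (2 * p.eval t.1.length) (fun i => t.2.getD i false))) (4 * p) (by
    exact PT.not (hR.comp (PT.prodMk (by fun_prop) (PT.prodMk
      (pt_decF hp (PT.const 0) (by fun_prop)) (pt_decF hp (by fun_prop) (by fun_prop))))))
  have hp' : PT fun x : Str => p.eval x.length := PT.poly_eval (by fun_prop) p
  refine ⟨fun x => bitEncode (matP (ψ x) (2 * p.eval x.length), matQ (ψ x) (2 * p.eval x.length)),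
    by fun_prop, fun x => ?_⟩
  rw [Bool.eq_iff_iff, hL, chainMinor_iff]
  set N := p.eval x.length with hN
  have hq : (4 * p).eval x.length = 4 * N := by simp [hN]
  have key : (∃ u : Str, u.length ≤ N ∧ ∀ v : Str, v.length ≤ N → R (x, u, v) = true) ↔
      ∃ y : ℕ → Bool, ∀ α : ℕ → Bool, (∀ i < 2 * N, α i = y i) → ¬ Sat (ψ x) α := by
    constructor
    · rintro ⟨u, hu, hv⟩
      refine ⟨encF N 0 u, fun α hα hs => ?_⟩
      have h1 := (h x ((List.range (4 * N)).map α) (by simp [hq])).mpr
        ⟨α, fun i hi => (getD_map_range α (by simpa using hi)).symm, hs⟩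
      simp only [← hN] at h1
      rw [decF_congr (β := encF N 0 u) fun i _ hi => by
        rw [getD_map_range α (by omega), hα i (by omega)], decF_encF 0 hu,
        hv _ (length_decF _ _ _)] at h1
      simp at h1
    · rintro ⟨y, hy⟩
      refine ⟨decF N 0 y, length_decF _ _ _, fun v hv => ?_⟩
      by_contra hne
      set β : ℕ → Bool := fun i => if i < 2 * N then y i else encF N (2 * N) v i with hβ
      obtain ⟨α, h1, h2⟩ := (h x ((List.range (4 * N)).map β) (by simp [hq])).mp (by
        simp only [← hN]
        rw [decF_congr (β := y) fun i _ hi => by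
          rw [getD_map_range β (by omega)]; simp only [hβ]; rw [if_pos (by omega)],
          decF_congr (s := 2 * N) (β := encF N (2 * N) v) fun i h1 hi => by
          rw [getD_map_range β (by omega)]; simp only [hβ]; rw [if_neg (by omega)],
          decF_encF _ hv]
        simpa using hne)
      refine hy α (fun i hi => ?_) h2
      rw [h1 i (by simp; omega), getD_map_range β (by omega)]
      simp only [hβ]; rw [if_pos hi]
  rw [key, ← isChainMinor_build]
  constructor
  · exact fun h => ⟨_, _, rfl, poset_matP _ _, poset_matQ _ _, h⟩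
  · rintro ⟨P, Q, e, -, -, h⟩
    obtain ⟨rfl, rfl⟩ := Prod.mk.inj (bitEncode_injective e)
    exact h

end Pool.Agent.Lib.MP_292d26_lc
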