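import Pool.Agent.Lib.MP_292d26_lc.Build

/-! The polynomial-time check behind the membership of CHAIN MINOR in the second level. -/

namespace Pool.Agent.Lib.MP_292d26_lc

open Pool.Agent.Lib.Complexity

/-- Boolean matrices -/
abbrev Mat := List (List Bool)

/-- poset test -/
def posetB (M : Mat) : Bool :=
  (M.all fun row => decide (row.length = M.length)) &&
    (((List.range M.length).all fun i => !ltM M i i) &&
      (List.range M.length).all fun i => (List.range M.length).all fun j =>
        (List.range M.length).all fun k => !(ltM M i j && ltM M j k) || ltM M i k)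

theorem posetB_iff (M : Mat) : posetB M = true ↔ IsPosetMatrix M := by
  rw [isPosetMatrix_iff_range]
  simp only [posetB, Bool.and_eq_true, List.all_eq_true, decide_eq_true_eq, Bool.or_eq_true,
    Bool.not_eq_true', ← Bool.not_eq_true]

/-- elements of `Q` that can be followed by a chain with labels `c` -/
def follow (Q : Mat) (F : List ℕ) (c : List ℕ) : List ℕ :=
  c.foldr (fun a S => (List.range Q.length).filter fun q =>
    S.any fun q' => decide (F.getD q' 0 = a) && ltM Q q q') (List.range Q.length)

theorem mem_follow (Q : Mat) (F : List ℕ) (c : List ℕ) : ∀ q, q ∈ follow Q F c ↔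
    q < Q.length ∧ ∃ d : List ℕ, (∀ b ∈ d, b ∈ List.range Q.length) ∧
      (q :: d).IsChain (fun a b => ltM Q a b = true) ∧ d.map (fun b => F.getD b 0) = c := by
  induction c with
  | nil => intro q; simp [follow]
  | cons a c ih =>
    intro q
    have h : follow Q F (a :: c) = (List.range Q.length).filter fun q =>
      (follow Q F c).any fun q' => decide (F.getD q' 0 = a) && ltM Q q q' := rfl
    rw [h, List.mem_filter, List.mem_range, List.any_eq_true]
    refine and_congr Iff.rfl ⟨?_, ?_⟩
    · rintro ⟨q', h1, h2⟩
      obtain ⟨h3, d, h4, h5, h6⟩ := (ih q').mp h1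
      simp only [Bool.and_eq_true, decide_eq_true_eq] at h2
      refine ⟨q' :: d, ?_, List.IsChain.cons_cons h2.2 h5, by simp only [List.map_cons, h2.1, h6]⟩
      intro b hb
      rcases List.mem_cons.mp hb with rfl | hb
      · exact List.mem_range.mpr h3
      · exact h4 b hb
    · rintro ⟨d, h1, h2, h3⟩
      obtain _ | ⟨q', d⟩ := d
      · simp at h3
      · simp only [List.map_cons, List.cons.injEq] at h3
        rw [List.isChain_cons_cons] at h2
        refine ⟨q', (ih q').mpr ⟨List.mem_range.mp (h1 q' (by simp)), d,
          fun b hb => h1 b (by simp [hb]), h2.2, h3.2⟩, ?_⟩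
        simp only [Bool.and_eq_true, decide_eq_true_eq]
        exact ⟨h3.1, h2.1⟩

/-- `c` is the image of a chain of `Q` -/
def coveredB (Q : Mat) (F : List ℕ) (c : List ℕ) : Bool :=
  c.isEmpty || (follow Q F c.tail).any fun q => decide (F.getD q 0 = c.headD 0)

theorem coveredB_iff (Q : Mat) (F : List ℕ) (c : List ℕ) : coveredB Q F c = true ↔
    ∃ d : List ℕ, (∀ b ∈ d, b ∈ List.range Q.length) ∧
      d.IsChain (fun a b => ltM Q a b = true) ∧ d.map (fun b => F.getD b 0) = c := by
  obtain _ | ⟨a, c⟩ := c
  · simp [coveredB]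
  · simp only [coveredB, List.isEmpty_cons, Bool.false_or, List.tail_cons, List.headD_cons,
      List.any_eq_true, mem_follow]
    constructor
    · rintro ⟨q, ⟨h1, d, h2, h3, h4⟩, h5⟩
      refine ⟨q :: d, ?_, h3, by simp only [List.map_cons, of_decide_eq_true h5, h4]⟩
      intro b hb
      rcases List.mem_cons.mp hb with rfl | hb
      · exact List.mem_range.mpr h1
      · exact h2 b hb
    · rintro ⟨d, h1, h2, h3⟩
      obtain _ | ⟨q, d⟩ := d
      · simp at h3
      · simp only [List.map_cons, List.cons.injEq] at h3
        exact ⟨q, ⟨List.mem_range.mp (h1 q (by simp)), d, fun b hb => h1 b (by simp [hb]), h2,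
          h3.2⟩, decide_eq_true h3.1⟩

/-- `c` is a chain of `P` -/
def chainB (P : Mat) (c : List ℕ) : Bool :=
  (c.all fun a => decide (a < P.length)) && (c.zip c.tail).all fun p => ltM P p.1 p.2

theorem all_zip_tail (r : ℕ → ℕ → Bool) (c : List ℕ) :
    ((c.zip c.tail).all fun p => r p.1 p.2) = true ↔ c.IsChain fun a b => r a b = true := by
  induction c with
  | nil => simp
  | cons a c ih =>
    obtain _ | ⟨b, c⟩ := c
    · simp
    · rw [List.isChain_cons_cons, ← ih]
      simp

theorem chainB_iff (P : Mat) (c : List ℕ) : chainB P c = true ↔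
    (∀ a ∈ c, a ∈ List.range P.length) ∧ c.IsChain fun a b => ltM P a b = true := by
  rw [chainB, Bool.and_eq_true, all_zip_tail]
  simp

/-- the whole test -/
def checkB (P Q : Mat) (F c : List ℕ) : Bool :=
  posetB P && (posetB Q && (((List.range Q.length).all fun j => decide (F.getD j 0 < P.length)) &&
    (!chainB P c || coveredB Q F c)))

theorem chain_length_le {P : Mat} (hP : IsPosetMatrix P) {c : List ℕ} (hc : chainB P c = true) :
    c.length ≤ P.length := by
  obtain ⟨h1, h2⟩ := (chainB_iff P c).mp hc
  obtain ⟨-, h3, h4⟩ := (isPosetMatrix_iff_range P).mp hP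
  have h5 : c.IsChain fun a b => ltM P a b = true ∧ a ∈ List.range P.length ∧
      b ∈ List.range P.length := by
    rw [List.isChain_iff_getElem] at h2 ⊢
    exact fun i hi => ⟨h2 i hi, h1 _ (List.getElem_mem _), h1 _ (List.getElem_mem _)⟩
  have : Trans (fun a b => ltM P a b = true ∧ a ∈ List.range P.length ∧ b ∈ List.range P.length)
      (fun a b => ltM P a b = true ∧ a ∈ List.range P.length ∧ b ∈ List.range P.length)
      (fun a b => ltM P a b = true ∧ a ∈ List.range P.length ∧ b ∈ List.range P.length) :=
    ⟨fun {a b c} x y => ⟨(h4 a x.2.1 b x.2.2 c y.2.2).resolve_left fun h => h ⟨x.1, y.1⟩,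
      x.2.1, y.2.2⟩⟩
  have h6 : c.Nodup := (List.isChain_iff_pairwise.mp h5).imp fun {a b} h hab => by
    subst hab
    exact h3 a h.2.1 h.1
  simpa using (List.subperm_of_subset h6 h1).length_le

theorem chainMinor_iff_check (P Q : Mat) {B : ℕ} (hP : P.length ≤ B) (hQ : Q.length ≤ B) :
    (IsPosetMatrix P ∧ IsPosetMatrix Q ∧ IsChainMinor P Q) ↔
      ∃ F : List ℕ, (F.length ≤ B ∧ ∀ a ∈ F, a ≤ B) ∧
        ∀ c : List ℕ, (c.length ≤ B ∧ ∀ a ∈ c, a ≤ B) → checkB P Q F c = true := by
  rw [isChainMinor_iff_range]
  constructor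
  · rintro ⟨h1, h2, f, h3, h4⟩
    have hF : ∀ j ∈ List.range Q.length, ((List.range Q.length).map f).getD j 0 = f j := by
      intro j hj
      have := List.mem_range.mp hj
      rw [List.getD_eq_getElem _ _ (by simpa using this)]
      simp
    refine ⟨(List.range Q.length).map f, ⟨by simpa using hQ, fun a ha => ?_⟩, fun c _ => ?_⟩
    · obtain ⟨j, hj, rfl⟩ := List.mem_map.mp ha
      have := List.mem_range.mp (h3 j hj)
      omega
    · simp only [checkB, Bool.and_eq_true, posetB_iff, List.all_eq_true, decide_eq_true_eq,
        Bool.or_eq_true, Bool.not_eq_true', ← Bool.not_eq_true, chainB_iff, coveredB_iff]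
      refine ⟨h1, h2, fun j hj => by rw [hF j hj]; exact List.mem_range.mp (h3 j hj), ?_⟩
      by_cases hc : (∀ a ∈ c, a ∈ List.range P.length) ∧ c.IsChain fun a b => ltM P a b = true
      · obtain ⟨d, a1, a2, a3⟩ := h4 c hc.1 hc.2
        refine Or.inr ⟨d, a1, a2, ?_⟩
        rw [← a3]
        exact List.map_congr_left fun b hb => hF b (a1 b hb)
      · exact Or.inl hc
  · rintro ⟨F, -, h⟩
    have h0 := h [] (by simp)
    simp only [checkB, Bool.and_eq_true, posetB_iff, List.all_eq_true, decide_eq_true_eq] at h0
    obtain ⟨h1, h2, h3, -⟩ := h0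
    refine ⟨h1, h2, fun j => F.getD j 0, fun j hj => List.mem_range.mpr (h3 j hj),
      fun c hc hch => ?_⟩
    have hcb := (chainB_iff P c).mpr ⟨hc, hch⟩
    have h4 := h c ⟨(chain_length_le h1 hcb).trans hP, fun a ha => by
      have := List.mem_range.mp (hc a ha); omega⟩
    simp only [checkB, hcb, Bool.and_eq_true, Bool.not_true, Bool.false_or, coveredB_iff] at h4
    exact h4.2.2.2

/-- reading a list of unary numbers -/
def unDec (u : List Bool) : List ℕ :=
  u.foldr (fun b acc => if b = true then (acc.headD 0 + 1) :: acc.tail else 0 :: acc) []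

/-- writing a list of unary numbers -/
def unEnc (F : List ℕ) : List Bool := F.flatMap fun a => List.replicate a true ++ [false]

theorem unDec_unEnc (F : List ℕ) : unDec (unEnc F) = F := by
  induction F with
  | nil => rfl
  | cons a F ih =>
    have : unEnc (a :: F) = List.replicate a true ++ (false :: unEnc F) := by simp [unEnc]
    rw [this]
    clear this
    induction a with
    | zero =>
      have : unDec (false :: unEnc F) = 0 :: unDec (unEnc F) := rfl
      simpa [ih] using this
    | succ a iha =>
      have : unDec (true :: (List.replicate a true ++ (false :: unEnc F))) =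
          ((unDec (List.replicate a true ++ (false :: unEnc F))).headD 0 + 1) ::
            (unDec (List.replicate a true ++ (false :: unEnc F))).tail := rfl
      rw [List.replicate_succ, List.cons_append, this, iha]
      rfl

theorem length_unEnc {F : List ℕ} {B : ℕ} (h : ∀ a ∈ F, a ≤ B) :
    (unEnc F).length ≤ F.length * (B + 1) := by
  induction F with
  | nil => simp [unEnc]
  | cons a F ih =>
    have h1 : unEnc (a :: F) = List.replicate a true ++ (false :: unEnc F) := by simp [unEnc]
    have h2 := ih fun b hb => h b (by simp [hb])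
    have h3 := h a (by simp)
    rw [h1]
    simp only [List.length_append, List.length_replicate, List.length_cons]
    nlinarith

section pt

variable {α : Type} [Enc α]

@[fun_prop] theorem pt_ltM {M : α → Mat} {i j : α → ℕ} (h1 : PT M) (h2 : PT i) (h3 : PT j) :
    PT fun a => ltM (M a) (i a) (j a) := by unfold ltM; fun_prop

@[fun_prop] theorem pt_posetB {M : α → Mat} (h1 : PT M) : PT fun a => posetB (M a) := by
  unfold posetB; fun_prop

@[fun_prop] theorem pt_follow {Q : α → Mat} {F c : α → List ℕ} (h1 : PT Q) (h2 : PT F)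
    (h3 : PT c) : PT fun a => follow (Q a) (F a) (c a) := by
  unfold follow
  refine PT.foldr (f := fun a b S => (List.range (Q a).length).filter fun q =>
    S.any fun q' => decide ((F a).getD q' 0 = b) && ltM (Q a) q q') h3 (by fun_prop) (by fun_prop)
    (B := fun a => sz (List.range (Q a).length)) (PT.pb (by fun_prop)) fun a i => ?_
  cases (c a).drop i with
  | nil => exact le_rfl
  | cons b l => exact sz_le_of_sublist List.filter_sublist

@[fun_prop] theorem pt_coveredB {Q : α → Mat} {F c : α → List ℕ} (h1 : PT Q) (h2 : PT F)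
    (h3 : PT c) : PT fun a => coveredB (Q a) (F a) (c a) := by
  unfold coveredB; fun_prop

@[fun_prop] theorem pt_chainB {P : α → Mat} {c : α → List ℕ} (h1 : PT P)
    (h3 : PT c) : PT fun a => chainB (P a) (c a) := by
  unfold chainB; fun_prop

@[fun_prop] theorem pt_checkB {P Q : α → Mat} {F c : α → List ℕ} (h0 : PT P) (h1 : PT Q)
    (h2 : PT F) (h3 : PT c) : PT fun a => checkB (P a) (Q a) (F a) (c a) := by
  unfold checkB; fun_prop

@[fun_prop] theorem pt_unDec {u : α → List Bool} (h : PT u) : PT fun a => unDec (u a) := by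
  unfold unDec
  refine PT.foldr_add' (f := fun _ b acc =>
    if b = true then (List.headD acc 0 + 1) :: acc.tail else 0 :: acc) (g := fun _ _ => 2) h
    (PT.const []) (by fun_prop) (by fun_prop) fun a b x => ?_
  split_ifs
  · cases x <;> simp
    omega
  · simp

end pt

end Pool.Agent.Lib.MP_292d26_lc
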